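import Pool.Agent.H15.Sep.Top
import Pool.Graph.R_seed8.W677.MC8
import Pool.Graph.R_seed8.TH363.CD.Uniq

/-!
# The normalised Multibrot set `{γ | A γ ∈ M_d}`, where `A ^ (d - 1) = - 1 / d`
-/

set_option autoImplicit false

open Complex Set Filter Topology Metric

namespace Pool.Agent.H15.Sep

open N62a1eb23 (multibrotSet IsAttractingCycle)
open Pool.Agent.H712R2 (P P_zero P_succ mem_multibrot_iff)
open Pool.Agent.H713R2 (IsExteriorMap exists_beta exteriorMap_of_beta)

variable {d : ℕ} {A : ℂ}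

/-- the normalised Multibrot set -/
def KK (d : ℕ) (A : ℂ) : Set ℂ := {g | A * g ∈ multibrotSet d}

theorem A_ne (hd : 2 ≤ d) (hA : A ^ (d - 1) = -1 / d) : A ≠ 0 := by
  rintro rfl
  rw [zero_pow (by omega)] at hA
  have hd0 : (d : ℂ) ≠ 0 := by exact_mod_cast (show d ≠ 0 by omega)
  have : (-1 : ℂ) / d ≠ 0 := div_ne_zero (by norm_num) hd0
  exact this hA.symm

theorem compact_KK (hd : 2 ≤ d) (hA : A ≠ 0) : IsCompact (KK d A) := by
  have h := Pool.Agent.H712R2.isCompact_multibrot hd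
  have h1 : KK d A = (fun z => A⁻¹ * z) '' multibrotSet d := by
    ext g
    simp only [KK, mem_ofPred_eq, mem_image]
    constructor
    · intro hg
      exact ⟨A * g, hg, by field_simp⟩
    · rintro ⟨z, hz, rfl⟩
      have : A * (A⁻¹ * z) = z := by field_simp
      rwa [this]
  rw [h1]
  exact h.image (by fun_prop)

theorem conn_compl_multibrot (hd : 2 ≤ d) : IsPreconnected (multibrotSet d)ᶜ := by
  obtain ⟨β, hβ⟩ := exists_beta (d := d) hd
  have hψ := exteriorMap_of_beta hβ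
  rw [← hψ.image]
  refine IsPreconnected.image ?_ _ hψ.diff.continuousOn
  have h2 : {z : ℂ | 1 < ‖z‖} = Complex.exp '' {w : ℂ | 0 < w.re} := by
    ext z
    simp only [mem_ofPred_eq, mem_image]
    constructor
    · intro hz
      have hz0 : z ≠ 0 := by
        rintro rfl
        rw [norm_zero] at hz
        linarith
      refine ⟨Complex.log z, ?_, Complex.exp_log hz0⟩
      rw [Complex.log_re]
      exact Real.log_pos hz
    · rintro ⟨w, hw, rfl⟩
      rw [Complex.norm_exp]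
      exact Real.one_lt_exp_iff.2 hw
  rw [h2]
  exact (convex_halfSpace_re_gt 0).isPreconnected.image _ Complex.continuous_exp.continuousOn

theorem conn_KK (hd : 2 ≤ d) (hA : A ≠ 0) : IsPreconnected (KK d A)ᶜ := by
  have h1 : (KK d A)ᶜ = (fun z => A⁻¹ * z) '' (multibrotSet d)ᶜ := by
    ext g
    simp only [KK, mem_compl_iff, mem_ofPred_eq, mem_image]
    constructor
    · intro hg
      exact ⟨A * g, hg, by field_simp⟩
    · rintro ⟨z, hz, rfl⟩
      have : A * (A⁻¹ * z) = z := by field_simp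
      rwa [this]
  rw [h1]
  exact (conn_compl_multibrot hd).image _ (by fun_prop)

theorem sym_KK (hd : 2 ≤ d) (hA : A ^ (d - 1) = -1 / d) :
    ∀ g ∈ KK d A, starRingEnd ℂ g ∈ KK d A := by
  intro g hg
  have hA0 := A_ne hd hA
  have hA0' : starRingEnd ℂ A ≠ 0 := by simpa using hA0
  obtain ⟨w, hw⟩ : ∃ w, w = A / starRingEnd ℂ A := ⟨_, rfl⟩
  have hAc : starRingEnd ℂ A ^ (d - 1) = A ^ (d - 1) := by
    rw [← map_pow, hA]
    simp
  have hw1 : w ^ (d - 1) = 1 := by
    rw [hw, div_pow, hAc, div_self (pow_ne_zero _ hA0)]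
  have hwd : w ^ d = w := by
    have : d = (d - 1) + 1 := by omega
    rw [this, pow_succ, hw1, one_mul]
  have hwn : ‖w‖ = 1 := by
    rw [hw, norm_div, Complex.norm_conj, div_self (norm_ne_zero_iff.2 hA0)]
  have hc : A * starRingEnd ℂ g = w * starRingEnd ℂ (A * g) := by
    rw [hw, map_mul]
    field_simp
  have hP : ∀ k, P d k (A * starRingEnd ℂ g) = w * starRingEnd ℂ (P d k (A * g)) := by
    intro k
    induction k with
    | zero => simp [P_zero]
    | succ k ih =>
      rw [P_succ, P_succ, ih, mul_pow, hwd, hc, map_add, map_pow]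
      ring
  show A * starRingEnd ℂ g ∈ multibrotSet d
  rw [mem_multibrot_iff hd]
  intro k
  rw [hP, norm_mul, hwn, one_mul, Complex.norm_conj]
  exact (mem_multibrot_iff hd _).1 hg k

theorem cc_eq (hd : 2 ≤ d) (hA : A ^ (d - 1) = -1 / d) :
    Pool.Agent.W677.MC.cc d A 0 = A * (1 + 1 / d) := by
  unfold Pool.Agent.W677.MC.cc
  have : A ^ d = A ^ (d - 1) * A := by
    rw [← pow_succ]
    congr 1
    omega
  rw [add_zero, this, hA]
  ring

theorem frontier_KK (hd : 2 ≤ d) (hA : A ^ (d - 1) = -1 / d) :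
    (((1 + 1 / d : ℝ)) : ℂ) ∈ closure (KK d A)ᶜ := by
  have hA0 := A_ne hd hA
  obtain ⟨β, hβ⟩ := exists_beta (d := d) hd
  have hψ := exteriorMap_of_beta hβ
  obtain ⟨C, -, hC⟩ := Pool.Agent.W677.MC.nearG hd hA
  rw [Metric.mem_closure_iff]
  intro ε hε
  have hAn : 0 < ‖A‖ := norm_pos_iff.2 hA0
  obtain ⟨z, hz, hz1, -⟩ := hC _ hψ (min 1 (‖A‖ * (ε / 2))) (by positivity) (min_le_left _ _)
  have hz2 := hz1.trans (min_le_right _ _)
  obtain ⟨c, hc⟩ : ∃ c, c = z * β z⁻¹ := ⟨_, rfl⟩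
  have hcM : c ∉ multibrotSet d := by
    have h1 : c ∈ (multibrotSet d)ᶜ := by
      rw [← hψ.image]
      exact ⟨z, hz, hc.symm⟩
    exact h1
  refine ⟨A⁻¹ * c, ?_, ?_⟩
  · show ¬ (A * (A⁻¹ * c) ∈ multibrotSet d)
    have : A * (A⁻¹ * c) = c := by field_simp
    rwa [this]
  · have hz3 : ‖c - A * (1 + 1 / d)‖ ≤ ‖A‖ * (ε / 2) := by
      rw [← cc_eq hd hA, hc]
      exact hz2
    rw [dist_eq_norm]
    have e : (((1 + 1 / d : ℝ)) : ℂ) - A⁻¹ * c = -(A⁻¹ * (c - A * (1 + 1 / d))) := by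
      push_cast
      field_simp
      ring
    rw [e, norm_neg, norm_mul, norm_inv]
    calc ‖A‖⁻¹ * ‖c - A * (1 + 1 / d)‖ ≤ ‖A‖⁻¹ * (‖A‖ * (ε / 2)) := by gcongr
      _ = ε / 2 := by field_simp
      _ < ε := by linarith

/-- attracting fixed points -/
theorem mem_one (hd : 2 ≤ d) (hA : A ^ (d - 1) = -1 / d) {x : ℂ} (hx : ‖x‖ < 1) :
    x + x ^ d / d ∈ KK d A := by
  have hd0 : (d : ℂ) ≠ 0 := by exact_mod_cast (show d ≠ 0 by omega)
  have hAd : A ^ d = A ^ (d - 1) * A := by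
    rw [← pow_succ]
    congr 1
    omega
  show A * (x + x ^ d / d) ∈ multibrotSet d
  refine Pool.Agent.TH363.CD.mem_multibrot hd (z := A * x) (m := 1) ⟨one_pos, ?_, ?_, ?_⟩
  · show (Pool.Agent.W747.MB.f d (A * (x + x ^ d / d)))^[1] (A * x) = A * x
    rw [Function.iterate_one]
    unfold Pool.Agent.W747.MB.f
    rw [mul_pow, hAd, hA]
    field_simp
    ring
  · rw [Function.iterate_one]
    unfold Pool.Agent.W747.MB.f
    fun_prop
  · rw [Function.iterate_one]
    have h1 : deriv (Pool.Agent.W747.MB.f d (A * (x + x ^ d / d))) (A * x) = -x ^ (d - 1) := by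
      unfold Pool.Agent.W747.MB.f
      rw [deriv_add_const, deriv_pow_field, mul_pow, hA]
      field_simp
    rw [h1, norm_neg, norm_pow]
    exact pow_lt_one₀ (norm_nonneg _) hx (by omega)

/-- attracting cycles of period two -/
theorem mem_two (hd : 2 ≤ d) (hA : A ^ (d - 1) = -1 / d) {a b g : ℂ} (h1 : g - b ^ d / d = a)
    (h2 : g - a ^ d / d = b) (h : ‖(a * b) ^ (d - 1)‖ < 1) : g ∈ KK d A := by
  have hd0 : (d : ℂ) ≠ 0 := by exact_mod_cast (show d ≠ 0 by omega)
  have hAd : A ^ d = A ^ (d - 1) * A := by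
    rw [← pow_succ]
    congr 1
    omega
  show A * g ∈ multibrotSet d
  have hf1 : Pool.Agent.W747.MB.f d (A * g) (A * a) = A * b := by
    unfold Pool.Agent.W747.MB.f
    rw [mul_pow, hAd, hA, ← h2]
    field_simp
    ring
  have hf2 : Pool.Agent.W747.MB.f d (A * g) (A * b) = A * a := by
    unfold Pool.Agent.W747.MB.f
    rw [mul_pow, hAd, hA, ← h1]
    field_simp
    ring
  have hder : ∀ z, HasDerivAt (Pool.Agent.W747.MB.f d (A * g)) (d * z ^ (d - 1)) z := by
    intro z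
    unfold Pool.Agent.W747.MB.f
    exact (hasDerivAt_pow d z).add_const _
  have hder2 : HasDerivAt ((Pool.Agent.W747.MB.f d (A * g))^[2])
      (d * (A * b) ^ (d - 1) * (d * (A * a) ^ (d - 1))) (A * a) := by
    have h3 := hder (Pool.Agent.W747.MB.f d (A * g) (A * a))
    rw [hf1] at h3
    have h4 := HasDerivAt.comp (A * a) (by rw [hf1]; exact h3) (hder (A * a))
    exact h4
  refine Pool.Agent.TH363.CD.mem_multibrot hd (z := A * a) (m := 2)
    ⟨two_pos, ?_, hder2.differentiableAt, ?_⟩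
  · show (Pool.Agent.W747.MB.f d (A * g))^[2] (A * a) = A * a
    rw [Function.iterate_succ_apply, Function.iterate_one, hf1, hf2]
  · rw [hder2.deriv]
    have e : d * (A * b) ^ (d - 1) * (d * (A * a) ^ (d - 1)) = (a * b) ^ (d - 1) := by
      rw [mul_pow, mul_pow, mul_pow, hA]
      field_simp
    rw [e]
    exact h

end Pool.Agent.H15.Sep
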