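import Mathlib

/-!
# Estimates for the parametrisation of the components of period two near their roots
-/

set_option autoImplicit false

open Complex Set Filter Topology Metric

namespace Pool.Agent.H15.Sep

theorem exp5 {x : ℂ} (hx : ‖x‖ ≤ 1) :
    ‖Complex.exp x - (1 + x + x ^ 2 / 2 + x ^ 3 / 6 + x ^ 4 / 24)‖ ≤ ‖x‖ ^ 5 / 100 := by
  have h := Complex.exp_bound hx (n := 5) (by norm_num)
  have e : ∑ m ∈ Finset.range 5, x ^ m / (m.factorial : ℂ) =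
      1 + x + x ^ 2 / 2 + x ^ 3 / 6 + x ^ 4 / 24 := by
    simp [Finset.sum_range_succ, Nat.factorial]
  rw [e] at h
  refine h.trans (le_of_eq ?_)
  norm_num [Nat.factorial]
  ring

theorem sinh_bd {s : ℂ} (hs : ‖s‖ ≤ 1) (hs0 : s ≠ 0) : ∃ e : ℂ, Complex.sinh s = s * (1 + s ^ 2 / 6 + e) ∧
    ‖e‖ ≤ ‖s‖ ^ 4 / 100 := by
  refine ⟨(Complex.sinh s - s - s ^ 3 / 6) / s, ?_, ?_⟩
  · field_simp
    ring
  · rw [norm_div, div_le_iff₀ (norm_pos_iff.2 hs0)]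
    have h1 := exp5 hs
    have h2 := exp5 (x := -s) (by rwa [norm_neg])
    rw [norm_neg] at h2
    have e : Complex.sinh s - s - s ^ 3 / 6 =
        ((Complex.exp s - (1 + s + s ^ 2 / 2 + s ^ 3 / 6 + s ^ 4 / 24)) -
          (Complex.exp (-s) - (1 + -s + (-s) ^ 2 / 2 + (-s) ^ 3 / 6 + (-s) ^ 4 / 24))) / 2 := by
      rw [Complex.sinh]
      ring
    rw [e, norm_div]
    have h3 := norm_sub_le (Complex.exp s - (1 + s + s ^ 2 / 2 + s ^ 3 / 6 + s ^ 4 / 24))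
      (Complex.exp (-s) - (1 + -s + (-s) ^ 2 / 2 + (-s) ^ 3 / 6 + (-s) ^ 4 / 24))
    rw [show ‖(2 : ℂ)‖ = 2 by simp]
    rw [div_le_iff₀ (by norm_num)]
    have h4 : ‖s‖ ^ 4 / 100 * ‖s‖ * 2 = ‖s‖ ^ 5 / 100 + ‖s‖ ^ 5 / 100 := by ring
    rw [h4]
    linarith

theorem cosh_bd {s : ℂ} (hs : ‖s‖ ≤ 1) : ∃ c : ℂ, Complex.cosh s = 1 + s ^ 2 / 2 + c ∧
    ‖c‖ ≤ ‖s‖ ^ 4 / 19 := by
  refine ⟨Complex.cosh s - 1 - s ^ 2 / 2, by ring, ?_⟩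
  have h1 := exp5 hs
  have h2 := exp5 (x := -s) (by rwa [norm_neg])
  rw [norm_neg] at h2
  have e : Complex.cosh s - 1 - s ^ 2 / 2 =
      ((Complex.exp s - (1 + s + s ^ 2 / 2 + s ^ 3 / 6 + s ^ 4 / 24)) +
        (Complex.exp (-s) - (1 + -s + (-s) ^ 2 / 2 + (-s) ^ 3 / 6 + (-s) ^ 4 / 24))) / 2 +
        s ^ 4 / 24 := by
    rw [Complex.cosh]
    ring
  have h3 := norm_add_le (Complex.exp s - (1 + s + s ^ 2 / 2 + s ^ 3 / 6 + s ^ 4 / 24))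
    (Complex.exp (-s) - (1 + -s + (-s) ^ 2 / 2 + (-s) ^ 3 / 6 + (-s) ^ 4 / 24))
  rw [e]
  refine (norm_add_le _ _).trans ?_
  rw [norm_div, norm_div, norm_pow, show ‖(2 : ℂ)‖ = 2 by simp, show ‖(24 : ℂ)‖ = 24 by simp]
  have h4 : ‖s‖ ^ 5 ≤ ‖s‖ ^ 4 := pow_le_pow_of_le_one (norm_nonneg _) hs (by norm_num)
  have h5 : 0 ≤ ‖s‖ ^ 4 := by positivity
  linarith

/-- the basic quantities -/
structure Bas (t : ℝ) (s : ℂ) (e f c k h W : ℂ) : Prop where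
  W0 : W = 1 + s ^ 2 / 6 + e
  sh : Complex.sinh s = s * W
  shu : Complex.sinh (s * t) = s * t * (1 + (s * t) ^ 2 / 6 + f)
  ch : Complex.cosh s = 1 + s ^ 2 / 2 + c
  chu : Complex.cosh (s * t) = 1 + (s * t) ^ 2 / 2 + k
  hW : Complex.cosh s = (1 + s ^ 2 / 3 + h) * W
  ne : ‖e‖ ≤ ‖s‖ ^ 4 / 100
  nf : ‖f‖ ≤ t * ‖s‖ ^ 4 / 800
  nk : ‖k‖ ≤ t * ‖s‖ ^ 4 / 152
  nh : ‖h‖ ≤ ‖s‖ ^ 4 / 6
  nW : 41 / 50 ≤ ‖W‖

theorem exists_bas {t : ℝ} (ht0 : 0 < t) (ht : t ≤ 1 / 2) {s : ℂ} (hs : ‖s‖ ≤ 1) (hs0 : s ≠ 0) :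
    ∃ e f c k h W : ℂ, Bas t s e f c k h W := by
  obtain ⟨e, he, ne⟩ := sinh_bd hs hs0
  have htn : ‖(t : ℂ)‖ = t := by rw [Complex.norm_real, Real.norm_of_nonneg ht0.le]
  have hst : ‖s * t‖ ≤ 1 := by
    rw [norm_mul, htn]
    nlinarith [norm_nonneg s]
  have hst0 : s * t ≠ 0 := mul_ne_zero hs0 (by exact_mod_cast ht0.ne')
  obtain ⟨f, hf, nf⟩ := sinh_bd hst hst0
  obtain ⟨c, hc, nc⟩ := cosh_bd hs
  obtain ⟨k, hk, nk⟩ := cosh_bd hst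
  obtain ⟨W, hW⟩ : ∃ W, W = 1 + s ^ 2 / 6 + e := ⟨_, rfl⟩
  have hx0 : 0 ≤ ‖s‖ := norm_nonneg s
  have hx2 : ‖s‖ ^ 2 ≤ 1 := pow_le_one₀ hx0 hs
  have hx4 : ‖s‖ ^ 4 ≤ 1 := pow_le_one₀ hx0 hs
  have hx40 : 0 ≤ ‖s‖ ^ 4 := by positivity
  have nW : 41 / 50 ≤ ‖W‖ := by
    have h1 : ‖W‖ = ‖(1 : ℂ) - (-(s ^ 2 / 6) - e)‖ := by
      rw [hW]
      congr 1
      ring
    have h2 := norm_sub_norm_le (1 : ℂ) (-(s ^ 2 / 6) - e)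
    have h3 := norm_sub_le (-(s ^ 2 / 6)) e
    rw [norm_neg, norm_div, norm_pow, show ‖(6 : ℂ)‖ = 6 by simp] at h3
    rw [norm_one] at h2
    rw [h1]
    linarith
  have hW0 : W ≠ 0 := by
    rw [← norm_pos_iff]
    linarith
  have hte : (s * t : ℂ) = s * t := rfl
  have ht3 : t ^ 3 ≤ 1 / 8 := by
    have : t ^ 3 ≤ (1 / 2 : ℝ) ^ 3 := pow_le_pow_left₀ ht0.le ht 3
    linarith [this, (by norm_num : ((1 : ℝ) / 2) ^ 3 = 1 / 8)]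
  have ht4 : ‖s * (t : ℂ)‖ ^ 4 ≤ t * ‖s‖ ^ 4 / 8 := by
    rw [norm_mul, htn, mul_pow]
    have : t ^ 4 = t ^ 3 * t := by ring
    rw [this]
    have h2 : t ^ 3 * t ≤ 1 / 8 * t := mul_le_mul_of_nonneg_right ht3 ht0.le
    nlinarith
  refine ⟨e, f, c, k, (c - e - s ^ 4 / 18 - s ^ 2 * e / 3) / W, W, hW, ?_, hf, hc, hk, ?_, ne, ?_,
    ?_, ?_, nW⟩
  · rw [hW]
    exact he
  · rw [hc]
    have : (1 + s ^ 2 / 3 + (c - e - s ^ 4 / 18 - s ^ 2 * e / 3) / W) * W =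
        (1 + s ^ 2 / 3) * W + (c - e - s ^ 4 / 18 - s ^ 2 * e / 3) := by
      field_simp
    rw [this, hW]
    ring
  · refine nf.trans ?_
    linarith
  · refine nk.trans ?_
    linarith
  · rw [norm_div, div_le_iff₀ (by linarith)]
    have h1 : ‖c - e - s ^ 4 / 18 - s ^ 2 * e / 3‖ ≤ ‖c‖ + ‖e‖ + ‖s‖ ^ 4 / 18 + ‖s‖ ^ 2 * ‖e‖ / 3 := by
      refine (norm_sub_le _ _).trans ?_
      refine add_le_add ((norm_sub_le _ _).trans ?_) ?_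
      · refine add_le_add (norm_sub_le _ _) ?_
        rw [norm_div, norm_pow]
        simp
      · rw [norm_div, norm_mul, norm_pow]
        simp
    have h2 : ‖s‖ ^ 2 * ‖e‖ ≤ 1 * (‖s‖ ^ 4 / 100) :=
      mul_le_mul hx2 ne (norm_nonneg _) (by norm_num)
    have h3 : ‖s‖ ^ 4 / 6 * (41 / 50) ≤ ‖s‖ ^ 4 / 6 * ‖W‖ := by gcongr
    linarith

/-- the square root of the multiplier -/
noncomputable def qq (t : ℝ) (s : ℂ) : ℂ := Complex.sinh (s * t) / (t * Complex.sinh s)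

/-- the geometric mean of the points of the cycle -/
noncomputable def mm (t : ℝ) (s : ℂ) : ℂ := Complex.exp (Complex.log (qq t s) * ((t / (1 - t) : ℝ) : ℂ))

/-- the parameter -/
noncomputable def gg (t : ℝ) (s : ℂ) : ℂ :=
  mm t s * (Complex.cosh (s * t) + Complex.cosh s * Complex.sinh (s * t) / Complex.sinh s)

theorem bas_log {t : ℝ} (ht0 : 0 < t) (ht : t ≤ 1 / 2) {s : ℂ} (hs : ‖s‖ ≤ 1) (hs0 : s ≠ 0)
    {e f c k h W : ℂ} (H : Bas t s e f c k h W) :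
    ‖qq t s - 1‖ < 1 ∧ ‖Complex.log (qq t s) + s ^ 2 / 6 * (1 - t ^ 2)‖ ≤ ‖s‖ ^ 4 / 12 := by
  have hx0 : 0 ≤ ‖s‖ := norm_nonneg s
  have hx2 : ‖s‖ ^ 2 ≤ 1 := pow_le_one₀ hx0 hs
  have hx4 : ‖s‖ ^ 4 ≤ 1 := pow_le_one₀ hx0 hs
  have hx40 : 0 ≤ ‖s‖ ^ 4 := by positivity
  have hx42 : ‖s‖ ^ 4 ≤ ‖s‖ ^ 2 := pow_le_pow_of_le_one hx0 hs (by norm_num)
  have hW0 : W ≠ 0 := by
    rw [← norm_pos_iff]
    linarith [H.nW]
  have htc : (t : ℂ) ≠ 0 := by exact_mod_cast ht0.ne'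
  have hq : qq t s = (1 + (s * t) ^ 2 / 6 + f) / W := by
    unfold qq
    rw [H.shu, H.sh]
    field_simp
  obtain ⟨z, hz⟩ : ∃ z, z = (f - e + s ^ 2 / 6 * (1 - t ^ 2) * (s ^ 2 / 6 + e)) / W := ⟨_, rfl⟩
  have hqz : qq t s = 1 - s ^ 2 / 6 * (1 - t ^ 2) + z := by
    rw [hq, hz]
    have h1 : (1 - s ^ 2 / 6 * (1 - (t : ℂ) ^ 2)) * W +
        (f - e + s ^ 2 / 6 * (1 - t ^ 2) * (s ^ 2 / 6 + e)) = 1 + (s * t) ^ 2 / 6 + f := by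
      rw [H.W0]
      ring
    rw [← h1]
    field_simp
  have htn : ‖(1 : ℂ) - (t : ℂ) ^ 2‖ ≤ 1 := by
    have : (1 : ℂ) - (t : ℂ) ^ 2 = ((1 - t ^ 2 : ℝ) : ℂ) := by push_cast; ring
    rw [this, Complex.norm_real, Real.norm_of_nonneg (by nlinarith)]
    nlinarith
  have hk : ‖s ^ 2 / 6 * (1 - (t : ℂ) ^ 2)‖ ≤ ‖s‖ ^ 2 / 6 := by
    rw [norm_mul, norm_div, norm_pow, show ‖(6 : ℂ)‖ = 6 by simp]
    exact mul_le_of_le_one_right (by positivity) htn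
  have hzn : ‖z‖ ≤ ‖s‖ ^ 4 * (1 / 20) := by
    rw [hz, norm_div, div_le_iff₀ (by linarith [H.nW])]
    have h1 : ‖f - e + s ^ 2 / 6 * (1 - t ^ 2) * (s ^ 2 / 6 + e)‖ ≤
        ‖f‖ + ‖e‖ + ‖s‖ ^ 2 / 6 * (‖s‖ ^ 2 / 6 + ‖e‖) := by
      refine (norm_add_le _ _).trans (add_le_add (norm_sub_le _ _) ?_)
      rw [norm_mul]
      refine mul_le_mul hk ?_ (norm_nonneg _) (by positivity)
      refine (norm_add_le _ _).trans (le_of_eq ?_)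
      rw [norm_div, norm_pow, show ‖(6 : ℂ)‖ = 6 by simp]
    have h2 := H.ne
    have h3 := H.nf
    have h4 : t * ‖s‖ ^ 4 ≤ 1 / 2 * ‖s‖ ^ 4 := by gcongr
    have h5 : ‖s‖ ^ 2 / 6 * (‖s‖ ^ 2 / 6 + ‖e‖) ≤ ‖s‖ ^ 4 / 36 + ‖s‖ ^ 4 / 600 := by
      have h6 : ‖s‖ ^ 2 * ‖e‖ ≤ 1 * (‖s‖ ^ 4 / 100) := mul_le_mul hx2 h2 (norm_nonneg _) (by norm_num)
      have h7 : ‖s‖ ^ 2 * ‖s‖ ^ 2 = ‖s‖ ^ 4 := by ring
      nlinarith
    have h8 : ‖s‖ ^ 4 * (1 / 20) * (41 / 50) ≤ ‖s‖ ^ 4 * (1 / 20) * ‖W‖ := by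
      have := H.nW
      gcongr
    linarith
  have hq1 : ‖qq t s - 1‖ ≤ ‖s‖ ^ 2 * (13 / 60) := by
    have h1 : qq t s - 1 = -(s ^ 2 / 6 * (1 - t ^ 2)) + z := by rw [hqz]; ring
    rw [h1]
    refine (norm_add_le _ _).trans ?_
    rw [norm_neg]
    linarith
  have hq2 : ‖qq t s - 1‖ ≤ 13 / 60 := by linarith
  refine ⟨by linarith, ?_⟩
  have h1 := Complex.norm_log_one_add_sub_self_le (z := qq t s - 1) (by linarith)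
  rw [add_sub_cancel] at h1
  have h2 : ‖Complex.log (qq t s) - (qq t s - 1)‖ ≤ ‖s‖ ^ 4 * (3 / 100) := by
    refine h1.trans ?_
    have h3 : (1 - ‖qq t s - 1‖)⁻¹ ≤ (47 / 60)⁻¹ := inv_anti₀ (by norm_num) (by linarith)
    have h4 : ‖qq t s - 1‖ ^ 2 ≤ (‖s‖ ^ 2 * (13 / 60)) ^ 2 := pow_le_pow_left₀ (norm_nonneg _) hq1 2
    have h5 : ‖qq t s - 1‖ ^ 2 * (1 - ‖qq t s - 1‖)⁻¹ ≤ (‖s‖ ^ 2 * (13 / 60)) ^ 2 * (47 / 60)⁻¹ :=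
      mul_le_mul h4 h3 (inv_nonneg.2 (by linarith)) (by positivity)
    have h6 : (‖s‖ ^ 2 * (13 / 60)) ^ 2 * (47 / 60)⁻¹ = ‖s‖ ^ 4 * (169 / 2820) := by ring
    rw [h6] at h5
    linarith
  have h3 : Complex.log (qq t s) + s ^ 2 / 6 * (1 - t ^ 2) =
      (Complex.log (qq t s) - (qq t s - 1)) + z := by
    rw [hqz]
    ring
  rw [h3]
  refine (norm_add_le _ _).trans ?_
  linarith

theorem bas_mm {t : ℝ} (ht0 : 0 < t) (ht : t ≤ 1 / 2) {s : ℂ} (hs : ‖s‖ ≤ 1)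
    (hl : ‖Complex.log (qq t s) + s ^ 2 / 6 * (1 - t ^ 2)‖ ≤ ‖s‖ ^ 4 / 12) :
    ∃ w : ℂ, mm t s = 1 - s ^ 2 * t * (1 + t) / 6 + w ∧ ‖w‖ ≤ t * ‖s‖ ^ 4 / 3 := by
  have hx0 : 0 ≤ ‖s‖ := norm_nonneg s
  have hx2 : ‖s‖ ^ 2 ≤ 1 := pow_le_one₀ hx0 hs
  have hx4 : ‖s‖ ^ 4 ≤ 1 := pow_le_one₀ hx0 hs
  have hx40 : 0 ≤ ‖s‖ ^ 4 := by positivity
  have hx42 : ‖s‖ ^ 4 ≤ ‖s‖ ^ 2 := pow_le_pow_of_le_one hx0 hs (by norm_num)
  obtain ⟨τ, hτ⟩ : ∃ τ : ℝ, τ = t / (1 - t) := ⟨_, rfl⟩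
  have hτ0 : 0 < τ := by rw [hτ]; exact div_pos ht0 (by linarith)
  have hτ2 : τ ≤ 2 * t := by
    rw [hτ, div_le_iff₀ (by linarith)]
    nlinarith
  have hτ1 : τ ≤ 1 := by linarith
  have hτt : τ * (1 - t) = t := by
    rw [hτ]
    have : (1 : ℝ) - t ≠ 0 := by linarith
    field_simp
  obtain ⟨e, he⟩ : ∃ e, e = Complex.log (qq t s) + s ^ 2 / 6 * (1 - t ^ 2) := ⟨_, rfl⟩
  rw [← he] at hl
  obtain ⟨l, hl0⟩ : ∃ l, l = Complex.log (qq t s) * (τ : ℂ) := ⟨_, rfl⟩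
  have hl1 : l = -(s ^ 2 * t * (1 + t) / 6) + e * τ := by
    have h1 : Complex.log (qq t s) = e - s ^ 2 / 6 * (1 - t ^ 2) := by rw [he]; ring
    have h2 : (τ : ℂ) * (1 - t) = t := by exact_mod_cast hτt
    rw [hl0, h1]
    linear_combination (-(s ^ 2 / 6) * (1 + t)) * h2
  have hln : ‖l‖ ≤ ‖s‖ ^ 2 / 4 * τ := by
    have h1 : Complex.log (qq t s) = e - s ^ 2 / 6 * (1 - t ^ 2) := by rw [he]; ring
    rw [hl0, norm_mul, Complex.norm_real, Real.norm_of_nonneg hτ0.le, h1]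
    apply mul_le_mul_of_nonneg_right _ hτ0.le
    refine (norm_sub_le _ _).trans ?_
    have hk : ‖s ^ 2 / 6 * (1 - (t : ℂ) ^ 2)‖ ≤ ‖s‖ ^ 2 / 6 := by
      rw [norm_mul, norm_div, norm_pow, show ‖(6 : ℂ)‖ = 6 by simp]
      apply mul_le_of_le_one_right (by positivity)
      have : (1 : ℂ) - (t : ℂ) ^ 2 = ((1 - t ^ 2 : ℝ) : ℂ) := by push_cast; ring
      rw [this, Complex.norm_real, Real.norm_of_nonneg (by nlinarith)]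
      nlinarith
    linarith
  have hln1 : ‖l‖ ≤ 1 := by nlinarith
  have h3 := Complex.norm_exp_sub_one_sub_id_le hln1
  have hmm : mm t s = Complex.exp l := by
    unfold mm
    rw [← hτ, hl0]
  refine ⟨Complex.exp l - 1 - l + e * τ, ?_, ?_⟩
  · rw [hmm]
    linear_combination hl1
  · refine (norm_add_le _ _).trans ?_
    rw [norm_mul, Complex.norm_real, Real.norm_of_nonneg hτ0.le]
    have h4 : ‖l‖ ^ 2 ≤ ‖s‖ ^ 4 / 16 * τ := by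
      have h5 : ‖l‖ ^ 2 ≤ (‖s‖ ^ 2 / 4 * τ) ^ 2 := pow_le_pow_left₀ (norm_nonneg _) hln 2
      have h6 : (‖s‖ ^ 2 / 4 * τ) ^ 2 = ‖s‖ ^ 4 / 16 * τ * τ := by ring
      rw [h6] at h5
      refine h5.trans (mul_le_of_le_one_right (by positivity) hτ1)
    have h5 : ‖e‖ * τ ≤ ‖s‖ ^ 4 / 12 * τ := by gcongr
    have h6 : ‖s‖ ^ 4 * τ ≤ ‖s‖ ^ 4 * (2 * t) := by gcongr
    have h7 : 0 ≤ t * ‖s‖ ^ 4 := by positivity
    nlinarith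

theorem bas_gg {t : ℝ} (ht0 : 0 < t) (ht : t ≤ 1 / 2) {s : ℂ} (hs : ‖s‖ ≤ 1) (hs0 : s ≠ 0) :
    Complex.sinh s ≠ 0 ∧ Complex.sinh (s * t) ≠ 0 ∧ ‖qq t s - 1‖ < 1 ∧
    ‖Complex.log (qq t s) + s ^ 2 / 6 * (1 - t ^ 2)‖ ≤ ‖s‖ ^ 4 / 12 ∧
    ‖gg t s - (1 + t) - s ^ 2 * t * (1 + t) / 6‖ ≤ t * ‖s‖ ^ 4 := by
  obtain ⟨e, f, c, k, h, W, H⟩ := exists_bas ht0 ht hs hs0
  obtain ⟨hq, hl⟩ := bas_log ht0 ht hs hs0 H
  obtain ⟨w, hw, hwn⟩ := bas_mm ht0 ht hs hl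
  have hx0 : 0 ≤ ‖s‖ := norm_nonneg s
  have hx2 : ‖s‖ ^ 2 ≤ 1 := pow_le_one₀ hx0 hs
  have hx4 : ‖s‖ ^ 4 ≤ 1 := pow_le_one₀ hx0 hs
  have hx40 : 0 ≤ ‖s‖ ^ 4 := by positivity
  have hW0 : W ≠ 0 := by
    rw [← norm_pos_iff]
    linarith [H.nW]
  have htc : (t : ℂ) ≠ 0 := by exact_mod_cast ht0.ne'
  have hsh : Complex.sinh s ≠ 0 := by
    rw [H.sh]
    exact mul_ne_zero hs0 hW0
  have hshu : Complex.sinh (s * t) ≠ 0 := by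
    intro h0
    have : qq t s = 0 := by
      unfold qq
      rw [h0, zero_div]
    rw [this] at hq
    norm_num at hq
  refine ⟨hsh, hshu, hq, hl, ?_⟩
  obtain ⟨b, hb⟩ : ∃ b, b = k + t * (s ^ 4 * t ^ 2 / 18 + h * (1 + (s * t) ^ 2 / 6 + f) +
    f * (1 + s ^ 2 / 3)) := ⟨_, rfl⟩
  have hB : Complex.cosh (s * t) + Complex.cosh s * Complex.sinh (s * t) / Complex.sinh s =
      1 + t + s ^ 2 * t * (1 + t) * (2 + t) / 6 + b := by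
    rw [H.chu, H.hW, H.shu, H.sh, hb]
    field_simp
    ring
  have hgg : gg t s - (1 + t) - s ^ 2 * t * (1 + t) / 6 =
      -(s ^ 4 * (t ^ 2 * (1 + t) ^ 2 * (2 + t) / 36)) +
        w * (1 + t + s ^ 2 * t * (1 + t) * (2 + t) / 6 + b) +
        b * (1 - s ^ 2 * t * (1 + t) / 6) := by
    unfold gg
    rw [hB, hw]
    ring
  have htn : ‖(t : ℂ)‖ = t := by rw [Complex.norm_real, Real.norm_of_nonneg ht0.le]
  have ht2 : t ^ 2 ≤ 1 / 4 := by nlinarith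
  have hbn : ‖b‖ ≤ t * ‖s‖ ^ 4 / 5 := by
    rw [hb]
    have h1 : ‖(1 : ℂ) + (s * t) ^ 2 / 6 + f‖ ≤ 1 + 1 / 24 + 1 / 1600 := by
      refine (norm_add_le _ _).trans (add_le_add ((norm_add_le _ _).trans ?_) ?_)
      · rw [norm_one, norm_div, norm_pow, norm_mul, htn, show ‖(6 : ℂ)‖ = 6 by simp]
        have : (‖s‖ * t) ^ 2 ≤ 1 / 4 := by
          rw [mul_pow]
          nlinarith
        linarith
      · refine H.nf.trans ?_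
        have : t * ‖s‖ ^ 4 ≤ 1 / 2 * 1 := by gcongr
        linarith
    have h2 : ‖(1 : ℂ) + s ^ 2 / 3‖ ≤ 4 / 3 := by
      refine (norm_add_le _ _).trans ?_
      rw [norm_one, norm_div, norm_pow, show ‖(3 : ℂ)‖ = 3 by simp]
      linarith
    have h3 : ‖s ^ 4 * (t : ℂ) ^ 2 / 18‖ ≤ ‖s‖ ^ 4 / 72 := by
      rw [norm_div, norm_mul, norm_pow, norm_pow, htn, show ‖(18 : ℂ)‖ = 18 by simp]
      have : ‖s‖ ^ 4 * t ^ 2 ≤ ‖s‖ ^ 4 * (1 / 4) := by gcongr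
      linarith
    have h4 : ‖h * (1 + (s * t) ^ 2 / 6 + f)‖ ≤ ‖s‖ ^ 4 / 6 * (1 + 1 / 24 + 1 / 1600) := by
      rw [norm_mul]
      exact mul_le_mul H.nh h1 (norm_nonneg _) (by positivity)
    have h5 : ‖f * (1 + s ^ 2 / 3)‖ ≤ ‖s‖ ^ 4 / 1600 * (4 / 3) := by
      rw [norm_mul]
      refine mul_le_mul (H.nf.trans ?_) h2 (norm_nonneg _) (by positivity)
      have : t * ‖s‖ ^ 4 ≤ 1 / 2 * ‖s‖ ^ 4 := by gcongr
      linarith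
    refine (norm_add_le _ _).trans ?_
    rw [norm_mul, htn]
    have h6 := H.nk
    have h7 : ‖s ^ 4 * (t : ℂ) ^ 2 / 18 + h * (1 + (s * t) ^ 2 / 6 + f) + f * (1 + s ^ 2 / 3)‖ ≤
        ‖s‖ ^ 4 / 72 + ‖s‖ ^ 4 / 6 * (1 + 1 / 24 + 1 / 1600) + ‖s‖ ^ 4 / 1600 * (4 / 3) :=
      (norm_add_le _ _).trans (add_le_add ((norm_add_le _ _).trans (add_le_add h3 h4)) h5)
    have h8 := mul_le_mul_of_nonneg_left h7 ht0.le
    have h9 : 0 ≤ t * ‖s‖ ^ 4 := by positivity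
    have h10 : t * (‖s‖ ^ 4 / 72 + ‖s‖ ^ 4 / 6 * (1 + 1 / 24 + 1 / 1600) +
        ‖s‖ ^ 4 / 1600 * (4 / 3)) = t * ‖s‖ ^ 4 * (1 / 72 + 1 / 6 * (1 + 1 / 24 + 1 / 1600) +
          1 / 1600 * (4 / 3)) := by ring
    rw [h10] at h8
    norm_num at h8
    linarith
  have h1t : ‖(1 : ℂ) + t‖ = 1 + t := by
    have : (1 : ℂ) + t = ((1 + t : ℝ) : ℂ) := by push_cast; ring
    rw [this, Complex.norm_real, Real.norm_of_nonneg (by linarith)]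
  have h2t : ‖(2 : ℂ) + t‖ = 2 + t := by
    have : (2 : ℂ) + t = ((2 + t : ℝ) : ℂ) := by push_cast; ring
    rw [this, Complex.norm_real, Real.norm_of_nonneg (by linarith)]
  rw [hgg]
  have g1 : ‖-(s ^ 4 * ((t : ℂ) ^ 2 * (1 + t) ^ 2 * (2 + t) / 36))‖ ≤ t * ‖s‖ ^ 4 * (79 / 1000) := by
    rw [norm_neg, norm_mul, norm_div, norm_mul, norm_mul, norm_pow, norm_pow, norm_pow, htn, h1t, h2t,
      show ‖(36 : ℂ)‖ = 36 by simp]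
    have h1 : (1 + t) ^ 2 ≤ 9 / 4 := by nlinarith
    have h2 : t ^ 2 * (1 + t) ^ 2 * (2 + t) ≤ t * (1 / 2) * (9 / 4) * (5 / 2) := by
      have h3 : t ^ 2 ≤ t * (1 / 2) := by nlinarith
      have h4 : (2 + t) ≤ 5 / 2 := by linarith
      have h5 : t ^ 2 * (1 + t) ^ 2 ≤ t * (1 / 2) * (9 / 4) :=
        mul_le_mul h3 h1 (by positivity) (by positivity)
      exact mul_le_mul h5 h4 (by linarith) (by positivity)
    have h3 : ‖s‖ ^ 4 * (t ^ 2 * (1 + t) ^ 2 * (2 + t) / 36) ≤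
        ‖s‖ ^ 4 * (t * (1 / 2) * (9 / 4) * (5 / 2) / 36) := by gcongr
    refine h3.trans ?_
    have h4 : 0 ≤ t * ‖s‖ ^ 4 := by positivity
    linarith
  have g2 : ‖(1 : ℂ) + t + s ^ 2 * t * (1 + t) * (2 + t) / 6 + b‖ ≤ 2 := by
    refine (norm_add_le _ _).trans ?_
    have h1 : ‖(1 : ℂ) + t + s ^ 2 * t * (1 + t) * (2 + t) / 6‖ ≤ 3 / 2 + 5 / 16 := by
      refine (norm_add_le _ _).trans (add_le_add (by rw [h1t]; linarith) ?_)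
      rw [norm_div, norm_mul, norm_mul, norm_mul, norm_pow, htn, h1t, h2t,
        show ‖(6 : ℂ)‖ = 6 by simp]
      have h3 : ‖s‖ ^ 2 * t ≤ 1 * (1 / 2) := by gcongr
      have h4 : ‖s‖ ^ 2 * t * (1 + t) ≤ 1 * (1 / 2) * (3 / 2) :=
        mul_le_mul h3 (by linarith) (by linarith) (by norm_num)
      have h5 : ‖s‖ ^ 2 * t * (1 + t) * (2 + t) ≤ 1 * (1 / 2) * (3 / 2) * (5 / 2) :=
        mul_le_mul h4 (by linarith) (by linarith) (by norm_num)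
      linarith
    have h2 : t * ‖s‖ ^ 4 ≤ 1 / 2 * 1 := by gcongr
    linarith
  have g3 : ‖(1 : ℂ) - s ^ 2 * t * (1 + t) / 6‖ ≤ 9 / 8 := by
    refine (norm_sub_le _ _).trans ?_
    rw [norm_one, norm_div, norm_mul, norm_mul, norm_pow, htn, h1t, show ‖(6 : ℂ)‖ = 6 by simp]
    have h3 : ‖s‖ ^ 2 * t ≤ 1 * (1 / 2) := by gcongr
    have h4 : ‖s‖ ^ 2 * t * (1 + t) ≤ 1 * (1 / 2) * (3 / 2) :=
      mul_le_mul h3 (by linarith) (by linarith) (by norm_num)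
    linarith
  have g4 : ‖w * (1 + t + s ^ 2 * t * (1 + t) * (2 + t) / 6 + b)‖ ≤ t * ‖s‖ ^ 4 / 3 * 2 := by
    rw [norm_mul]
    exact mul_le_mul hwn g2 (norm_nonneg _) (by positivity)
  have g5 : ‖b * (1 - s ^ 2 * t * (1 + t) / 6)‖ ≤ t * ‖s‖ ^ 4 / 5 * (9 / 8) := by
    rw [norm_mul]
    exact mul_le_mul hbn g3 (norm_nonneg _) (by positivity)
  refine (norm_add_le _ _).trans ((add_le_add ((norm_add_le _ _).trans (add_le_add g1 g4)) g5).trans ?_)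
  have h9 : 0 ≤ t * ‖s‖ ^ 4 := by positivity
  linarith

end Pool.Agent.H15.Sep
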