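import Pool.Agent.H15.Sep.Upper

/-!
# The square root law for the modulus of local connectivity
-/

set_option autoImplicit false

open Complex Set Filter Topology Metric

namespace Pool.Agent.H15.Sep

open N62a1eb23 (multibrotSet IsAttractingCycle)

variable {d : ℕ} {A : ℂ}

/-- the pair of points at the scale `ρ` -/
theorem core (hd : 2 ≤ d) (hA : A ^ (d - 1) = -1 / d) {ρ : ℝ} (hρ0 : 0 < ρ) (hρ : ρ ≤ 1 / 13) :
    ∃ x ∈ multibrotSet d, ∃ y ∈ multibrotSet d, dist x y ≤ 7 * ρ ^ 2 / d ∧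
      ρ / (24 * d) ≤ dist x (A * (1 + 1 / d)) ∧
      (∀ S ⊆ multibrotSet d, IsPreconnected S → x ∈ S → y ∈ S → A * (1 + 1 / d) ∈ closure S) ∧
      ∃ S ⊆ multibrotSet d, IsCompact S ∧ IsConnected S ∧ x ∈ S ∧ y ∈ S ∧ diam S ≤ 8 * ρ / d := by
  have hA0 := A_ne hd hA
  have hdR : (2 : ℝ) ≤ d := by exact_mod_cast hd
  obtain ⟨hAl, hAu⟩ := norm_A hd hA
  obtain ⟨V₁, x, a, v1, v2, v3, v4, v5, v6, v7, v8, ξ, v9, v10, v11⟩ := curve_one hd hA hρ0 hρ
  obtain ⟨V₂, y, b, w1, w2, w3, w4, w5, w6, w7, w8, w9⟩ := curve_two hd hA hρ0 hρ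
  obtain ⟨t, ht⟩ : ∃ t : ℝ, t = 1 / d := ⟨_, rfl⟩
  have ht0 : 0 < t := by rw [ht]; positivity
  have ht2 : t ≤ 1 / 2 := by
    rw [ht]
    exact one_div_le_one_div_of_le (by norm_num) hdR
  have hc0 : A * (1 + 1 / d) = A * ((1 + 1 / d : ℝ) : ℂ) := by push_cast; ring
  rw [← ht] at v8 w8
  refine ⟨A * x, v1 v4, A * y, w1 w4, ?_, ?_, ?_, ?_⟩
  · rw [dist_eq_norm, ← mul_sub, norm_mul]
    have h1 : ‖x - y‖ ≤ 7 * ρ ^ 2 * t := by
      have e : x - y = (x - (1 + t) - ρ * I * t * (1 + t) / 6) -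
          (y - (1 + t) - ρ * I * t * (1 + t) / 6) := by ring
      rw [e]
      refine (norm_sub_le _ _).trans ?_
      linarith
    have h2 : ‖A‖ * ‖x - y‖ ≤ 1 * (7 * ρ ^ 2 * t) := mul_le_mul hAu h1 (norm_nonneg _) zero_le_one
    refine h2.trans (le_of_eq ?_)
    rw [ht]
    ring
  · rw [dist_eq_norm, hc0, ← mul_sub, norm_mul]
    have h1 : ρ * t / 12 ≤ ‖x - ((1 + 1 / d : ℝ) : ℂ)‖ := by
      have e : x - ((1 + 1 / d : ℝ) : ℂ) = (x - (1 + t) - ρ * I * t * (1 + t) / 6) -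
          (-(ρ * I * t * (1 + t) / 6)) := by
        rw [← ht]
        push_cast
        ring
      have e2 : ‖-((ρ : ℂ) * I * t * (1 + t) / 6)‖ = ρ * t * (1 + t) / 6 := by
        have : -((ρ : ℂ) * I * t * (1 + t) / 6) = ((-(ρ * t * (1 + t) / 6) : ℝ) : ℂ) * I := by
          push_cast
          ring
        rw [this, norm_mul, Complex.norm_I, mul_one, Complex.norm_real, norm_neg,
          Real.norm_of_nonneg (by positivity)]
      rw [e]
      have h2 := norm_sub_le (x - (1 + t) - ρ * I * t * (1 + t) / 6)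
        ((x - (1 + t) - ρ * I * t * (1 + t) / 6) - -((ρ : ℂ) * I * t * (1 + t) / 6))
      rw [sub_sub_cancel, e2] at h2
      have h3 : ρ ^ 2 * t ≤ 1 / 13 * (ρ * t) := by
        have : ρ ^ 2 * t = ρ * (ρ * t) := by ring
        rw [this]
        gcongr
      have h4 : 0 < ρ * t := by positivity
      have h5 : 0 < ρ * t * t := by positivity
      nlinarith
    have h2 : 1 / 2 * (ρ * t / 12) ≤ ‖A‖ * ‖x - ((1 + 1 / d : ℝ) : ℂ)‖ :=
      mul_le_mul hAl h1 (by positivity) (norm_nonneg _)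
    refine le_trans (le_of_eq ?_) h2
    rw [ht]
    field_simp
    norm_num
  · intro S hSM hS hxS hyS
    -- the normalised set
    obtain ⟨S', hS'⟩ : ∃ S' : Set ℂ, S' = (fun z => A⁻¹ * z) '' S := ⟨_, rfl⟩
    have hS'K : S' ⊆ KK d A := by
      rw [hS']
      rintro _ ⟨z, hz, rfl⟩
      show A * (A⁻¹ * z) ∈ multibrotSet d
      have : A * (A⁻¹ * z) = z := by field_simp
      rw [this]
      exact hSM hz
    have hS'c : IsPreconnected S' := by
      rw [hS']
      exact hS.image _ (by fun_prop)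
    have hxS' : x ∈ S' := by
      rw [hS']
      exact ⟨A * x, hxS, by field_simp⟩
    have hyS' : y ∈ S' := by
      rw [hS']
      exact ⟨A * y, hyS, by field_simp⟩
    have hK := compact_KK hd hA0
    have hcl : closure S' ⊆ KK d A := hK.isClosed.closure_subset_iff.2 hS'K
    have hQ1 : IsPreconnected (V₁ ∪ closure S') :=
      v3.union x v4 (subset_closure hxS') hS'c.closure
    have hQ2 : IsPreconnected (V₁ ∪ closure S' ∪ V₂) :=
      hQ1.union y (Or.inr (subset_closure hyS')) w4 w3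
    have hQK : V₁ ∪ closure S' ∪ V₂ ⊆ KK d A := union_subset (union_subset v1 hcl) w1
    have hQcl : IsClosed (V₁ ∪ closure S' ∪ V₂) :=
      (v2.isClosed.union isClosed_closure).union w2.isClosed
    have key := real_sep hK (conn_KK hd hA0) (sym_KK hd hA) (frontier_KK hd hA) hQK hQcl hQ2
      (a := a) (b := b) (Or.inl (Or.inl v5)) (Or.inr w5) v6 w6
    have hmem : ((1 + 1 / d : ℝ) : ℂ) ∈ closure S' := by
      rcases key with (h | h) | h
      · exfalso
        have := v7 _ h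
        rw [Complex.norm_real, Real.norm_of_nonneg (by positivity)] at this
        exact lt_irrefl _ this
      · exact h
      · exfalso
        have := w7 _ h
        rw [Complex.ofReal_re] at this
        exact lt_irrefl _ this
    rw [hc0]
    have himg : S = (fun z => A * z) '' S' := by
      rw [hS', ← image_comp]
      have : ((fun z => A * z) ∘ fun z => A⁻¹ * z) = id := by
        funext z
        simp only [Function.comp_apply, id]
        field_simp
      rw [this, image_id]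
    rw [himg]
    have h1 := image_closure_subset_closure_image (f := fun z : ℂ => A * z) (by fun_prop)
      (mem_image_of_mem (fun z : ℂ => A * z) hmem)
    exact h1
  · obtain ⟨U₁, p1, p2, p3, p4, p5, p6⟩ := join_one hd hA v9
    have hρ2 : ρ ^ 2 ≤ 1 / 13 * ρ := by
      rw [sq]
      gcongr
    have hσre : (((13 * ρ ^ 2 : ℝ) : ℂ) + ρ * I).re = 13 * ρ ^ 2 := by
      rw [Complex.add_re, Complex.ofReal_re]
      simp
    have hσim : (((13 * ρ ^ 2 : ℝ) : ℂ) + ρ * I).im = ρ := by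
      rw [Complex.add_im, Complex.ofReal_im]
      simp
    have hσn : ‖((13 * ρ ^ 2 : ℝ) : ℂ) + ρ * I‖ ≤ 2 * ρ := by
      refine (norm_add_le _ _).trans ?_
      rw [norm_mul, Complex.norm_I, mul_one, Complex.norm_real, Complex.norm_real,
        Real.norm_of_nonneg hρ0.le, Real.norm_of_nonneg (by positivity)]
      linarith
    have hσ2 : 6 * ‖((13 * ρ ^ 2 : ℝ) : ℂ) + ρ * I‖ ^ 2 < (((13 * ρ ^ 2 : ℝ) : ℂ) + ρ * I).re := by
      rw [← Complex.normSq_eq_norm_sq, Complex.normSq_apply, hσre, hσim]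
      have h0 : 0 < ρ ^ 2 := by positivity
      have h1 : ρ ^ 2 ≤ 1 / 169 := by nlinarith
      nlinarith
    obtain ⟨U₂, q1, q2, q3, q4, q5, q6⟩ := join_two hd hA (by linarith) hσ2
    rw [← w9] at q4
    rw [← v10] at p4
    have hU : IsPreconnected (U₁ ∪ U₂) := p3.union _ p5 q5 q3
    have hrad : ∀ z ∈ U₁ ∪ U₂, ‖z - ((1 + 1 / d : ℝ) : ℂ)‖ ≤ 4 * ρ * t := by
      rintro z (hz | hz)
      · refine (p6 z hz).trans ?_
        rw [← ht] at v11
        have : 0 < ρ * t := by positivity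
        linarith
      · refine (q6 z hz).trans ?_
        rw [← ht]
        have h1 : 2 * t * ‖((13 * ρ ^ 2 : ℝ) : ℂ) + ρ * I‖ ≤ 2 * t * (2 * ρ) := by gcongr
        linarith
    refine ⟨(fun z => A * z) '' (U₁ ∪ U₂), ?_, (p2.union q2).image (by fun_prop),
      ⟨⟨A * x, x, Or.inl p4, rfl⟩, hU.image _ (by fun_prop)⟩, ⟨x, Or.inl p4, rfl⟩,
      ⟨y, Or.inr q4, rfl⟩, ?_⟩
    · rintro _ ⟨z, hz, rfl⟩
      exact (union_subset p1 q1) hz
    · apply Metric.diam_le_of_forall_dist_le (by positivity)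
      rintro _ ⟨z, hz, rfl⟩ _ ⟨w, hw, rfl⟩
      simp only
      rw [dist_eq_norm, ← mul_sub, norm_mul]
      have h1 : ‖z - w‖ ≤ 8 * ρ * t := by
        have e : z - w = (z - ((1 + 1 / d : ℝ) : ℂ)) - (w - ((1 + 1 / d : ℝ) : ℂ)) := by ring
        rw [e]
        refine (norm_sub_le _ _).trans ?_
        linarith [hrad z hz, hrad w hw]
      have h2 : ‖A‖ * ‖z - w‖ ≤ 1 * (8 * ρ * t) := mul_le_mul hAu h1 (norm_nonneg _) zero_le_one
      refine h2.trans (le_of_eq ?_)
      rw [ht]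
      ring

/-- **The modulus of local connectivity at small scales.** -/
theorem main {n : ℕ} (hn : 2 ≤ n) (hA : A ^ (n - 1) = -1 / n) {t : ℝ} (ht0 : 0 < t)
    (ht : t ≤ 1 / n) : ∃ x ∈ multibrotSet n, ∃ y ∈ multibrotSet n, dist x y ≤ t ∧
      √(t / n) / 312 ≤ dist x (A * (1 + 1 / n)) ∧
      (∀ S ⊆ multibrotSet n, IsPreconnected S → x ∈ S → y ∈ S →
        A * (1 + 1 / n) ∈ closure S ∧ √(t / n) / 312 ≤ diam S) ∧
      ∃ S ⊆ multibrotSet n, IsCompact S ∧ IsConnected S ∧ x ∈ S ∧ y ∈ S ∧ diam S ≤ √(t / n) := by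
  have hnR : (2 : ℝ) ≤ n := by exact_mod_cast hn
  have hn0 : (0 : ℝ) < n := by linarith
  obtain ⟨ρ, hρ⟩ : ∃ ρ, ρ = √(n * t) / 13 := ⟨_, rfl⟩
  have hnt : n * t ≤ 1 := by
    rw [le_div_iff₀ hn0] at ht
    linarith
  have hρ0 : 0 < ρ := by rw [hρ]; positivity
  have hρ1 : ρ ≤ 1 / 13 := by
    rw [hρ]
    have : √(n * t) ≤ 1 := Real.sqrt_le_one.2 hnt
    linarith
  obtain ⟨x, hx, y, hy, h1, h2, h3, S₀, j1, j2, j3, j4, j5, j6⟩ := core hn hA hρ0 hρ1
  have e0 : √(t / n) = √(n * t) / n := by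
    rw [show t / n = (n * t) / n ^ 2 by field_simp, Real.sqrt_div (by positivity),
      Real.sqrt_sq hn0.le]
  have hρ2 : ρ ^ 2 = n * t / 169 := by
    rw [hρ, div_pow, Real.sq_sqrt (by positivity)]
    norm_num
  have hdist : √(t / n) / 312 ≤ dist x (A * (1 + 1 / n)) := by
    refine le_trans (le_of_eq ?_) h2
    rw [e0, hρ]
    field_simp
    norm_num
  refine ⟨x, hx, y, hy, ?_, hdist, ?_, S₀, j1, j2, j3, j4, j5, j6.trans ?_⟩
  · refine h1.trans ?_
    rw [hρ2, div_le_iff₀ hn0]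
    have : 0 < n * t := by positivity
    linarith
  · intro S hSM hS hxS hyS
    have h4 := h3 S hSM hS hxS hyS
    refine ⟨h4, ?_⟩
    rw [← Metric.diam_closure]
    have hb : Bornology.IsBounded (closure S) :=
      (((Pool.Agent.H712R2.isCompact_multibrot hn).isBounded).subset hSM).closure
    exact hdist.trans (Metric.dist_le_diam_of_mem hb (subset_closure hxS) h4)
  · rw [e0, hρ]
    have h0 : 0 ≤ √(n * t) := Real.sqrt_nonneg _
    apply div_le_div_of_nonneg_right _ hn0.le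
    linarith

end Pool.Agent.H15.Sep
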