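import Pool.Agent.H15.Sep.Dyn
import Pool.Agent.H15.Sep.Est

/-!
# Pairs of points which are joined only through a parabolic parameter
-/

set_option autoImplicit false

open Complex Set Filter Topology Metric

namespace Pool.Agent.H15.Sep

open N62a1eb23 (multibrotSet IsAttractingCycle)

variable {d : ℕ} {A : ℂ}

theorem mem_gg (hd : 2 ≤ d) (hA : A ^ (d - 1) = -1 / d) {t : ℝ} (ht : t = 1 / d) {s : ℂ}
    (hs1 : Complex.sinh s ≠ 0) (hs2 : Complex.sinh (s * t) ≠ 0)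
    (hre : (Complex.log (qq t s)).re < 0) : gg t s ∈ KK d A := by
  have hdR : (2 : ℝ) ≤ d := by exact_mod_cast hd
  have hd0 : (d : ℝ) ≠ 0 := by positivity
  have hd0c : (d : ℂ) ≠ 0 := by exact_mod_cast hd0
  have ht0 : 0 < t := by rw [ht]; positivity
  have ht0c : (t : ℂ) ≠ 0 := by exact_mod_cast ht0.ne'
  have hdt : (d : ℝ) * t = 1 := by rw [ht]; field_simp
  have hdtc : (d : ℂ) * t = 1 := by exact_mod_cast hdt
  have htlt : t < 1 := by
    rw [ht, div_lt_one (by positivity)]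
    linarith
  have hτ : (((d - 1 : ℕ) : ℝ)) * (t / (1 - t)) = 1 := by
    rw [Nat.cast_sub (by omega), Nat.cast_one]
    have h1 : (1 : ℝ) - t ≠ 0 := by linarith
    field_simp
    linarith
  have hq0 : qq t s ≠ 0 := by
    unfold qq
    exact div_ne_zero hs2 (mul_ne_zero ht0c hs1)
  have hm : mm t s ^ (d - 1) = qq t s := by
    unfold mm
    rw [← Complex.exp_nat_mul]
    have : ((d - 1 : ℕ) : ℂ) * (Complex.log (qq t s) * ((t / (1 - t) : ℝ) : ℂ)) =
        Complex.log (qq t s) := by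
      have h1 : ((d - 1 : ℕ) : ℂ) * ((t / (1 - t) : ℝ) : ℂ) = 1 := by exact_mod_cast hτ
      linear_combination (Complex.log (qq t s)) * h1
    rw [this, Complex.exp_log hq0]
  have hpow : ∀ x : ℂ, x ^ d = x ^ (d - 1) * x := by
    intro x
    rw [← pow_succ]
    congr 1
    omega
  have hE : ∀ x : ℂ, Complex.exp (x * t) ^ d = Complex.exp x := by
    intro x
    rw [← Complex.exp_nat_mul]
    congr 1
    linear_combination x * hdtc
  have hqt : qq t s * t = Complex.sinh (s * t) / Complex.sinh s := by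
    unfold qq
    field_simp
  have hdiv : ∀ x : ℂ, x / d = x * t := by
    intro x
    rw [div_eq_iff hd0c]
    linear_combination (-x) * hdtc
  refine mem_two hd hA (a := mm t s * Complex.exp (s * t)) (b := mm t s * Complex.exp (-s * t))
    ?_ ?_ ?_
  · rw [mul_pow, hE, hdiv, hpow, hm, ← Complex.cosh_sub_sinh]
    unfold gg
    rw [← Complex.cosh_add_sinh (s * t)]
    have h1 : qq t s * mm t s * (Complex.cosh s - Complex.sinh s) * t =
        mm t s * (Complex.sinh (s * t) / Complex.sinh s) * (Complex.cosh s - Complex.sinh s) := by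
      rw [← hqt]; ring
    rw [h1]
    field_simp
    ring
  · rw [mul_pow, hE, hdiv, hpow, hm, ← Complex.cosh_add_sinh]
    unfold gg
    rw [show -s * (t : ℂ) = -(s * t) by ring, ← Complex.cosh_sub_sinh (s * t)]
    have h1 : qq t s * mm t s * (Complex.cosh s + Complex.sinh s) * t =
        mm t s * (Complex.sinh (s * t) / Complex.sinh s) * (Complex.cosh s + Complex.sinh s) := by
      rw [← hqt]; ring
    rw [h1]
    field_simp
    ring
  · have e : mm t s * Complex.exp (s * t) * (mm t s * Complex.exp (-s * t)) = mm t s * mm t s := by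
      have : Complex.exp (s * t) * Complex.exp (-s * t) = 1 := by
        rw [← Complex.exp_add]
        rw [show s * (t : ℂ) + -s * t = 0 by ring, Complex.exp_zero]
      linear_combination (mm t s * mm t s) * this
    rw [e, mul_pow, hm, norm_mul]
    have h1 : ‖qq t s‖ < 1 := by
      rw [Complex.log_re] at hre
      by_contra hcon
      exact absurd hre (not_lt.2 (Real.log_nonneg (not_lt.1 hcon)))
    have h0 := norm_nonneg (qq t s)
    nlinarith

/-- the square root -/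
noncomputable def rt (σ : ℂ) : ℂ := Complex.exp (Complex.log σ / 2)

theorem rt_sq {σ : ℂ} (h : σ ≠ 0) : rt σ ^ 2 = σ := by
  unfold rt
  rw [← Complex.exp_nat_mul]
  have : ((2 : ℕ) : ℂ) * (Complex.log σ / 2) = Complex.log σ := by
    push_cast
    ring
  rw [this, Complex.exp_log h]

theorem rt_ne (σ : ℂ) : rt σ ≠ 0 := Complex.exp_ne_zero _

theorem rt_norm {σ : ℂ} (h : σ ≠ 0) : ‖rt σ‖ ^ 2 = ‖σ‖ := by
  rw [← norm_pow, rt_sq h]

/-- real points of the curve -/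
theorem gg_real {t : ℝ} (ht0 : 0 < t) {x : ℝ} (hx : 0 < x) : ∃ r : ℝ, gg t (rt (x : ℂ)) = r := by
  obtain ⟨y, hy⟩ : ∃ y, y = Real.exp (Real.log x / 2) := ⟨_, rfl⟩
  have hy0 : 0 < y := by rw [hy]; positivity
  have h1 : rt (x : ℂ) = (y : ℂ) := by
    unfold rt
    rw [hy, ← Complex.ofReal_log hx.le]
    push_cast
    rfl
  have hs : 0 < Real.sinh y := Real.sinh_pos_iff.2 hy0
  have hst : 0 < Real.sinh (y * t) := Real.sinh_pos_iff.2 (by positivity)
  have hq : qq t (y : ℂ) = ((Real.sinh (y * t) / (t * Real.sinh y) : ℝ) : ℂ) := by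
    unfold qq
    push_cast
    rfl
  refine ⟨Real.exp (Real.log (Real.sinh (y * t) / (t * Real.sinh y)) * (t / (1 - t))) *
    (Real.cosh (y * t) + Real.cosh y * Real.sinh (y * t) / Real.sinh y), ?_⟩
  rw [h1]
  unfold gg mm
  rw [hq, ← Complex.ofReal_log (by positivity)]
  push_cast
  rfl

/-- estimates on the vertical segment -/
theorem seg_bd {t : ℝ} (ht0 : 0 < t) (ht : t ≤ 1 / 2) {ρ y : ℝ} (hρ0 : 0 < ρ) (hρ : ρ ≤ 1 / 13)
    (hy : |y| ≤ ρ) {σ : ℂ} (hσ : σ = ((13 * ρ ^ 2 : ℝ) : ℂ) + y * I) :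
    σ ∈ Complex.slitPlane ∧ Complex.sinh (rt σ) ≠ 0 ∧ Complex.sinh (rt σ * t) ≠ 0 ∧
    qq t (rt σ) ∈ Complex.slitPlane ∧ (Complex.log (qq t (rt σ))).re < 0 ∧
    1 + t < (gg t (rt σ)).re ∧
    ‖gg t (rt σ) - (1 + t) - y * I * t * (1 + t) / 6‖ ≤ 6 * ρ ^ 2 * t := by
  have hre : σ.re = 13 * ρ ^ 2 := by
    rw [hσ, Complex.add_re, Complex.ofReal_re]
    simp
  have him : σ.im = y := by
    rw [hσ, Complex.add_im, Complex.ofReal_im]
    simp
  have hσ0 : σ ≠ 0 := by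
    intro h0
    rw [h0] at hre
    simp at hre
    exact absurd hre hρ0.ne'
  have hρ2 : ρ ^ 2 ≤ 1 / 169 := by nlinarith
  have hn4 : ‖rt σ‖ ^ 4 ≤ 2 * ρ ^ 2 := by
    have h1 : ‖rt σ‖ ^ 4 = ‖σ‖ ^ 2 := by
      rw [← rt_norm hσ0]
      ring
    rw [h1, ← Complex.normSq_eq_norm_sq, Complex.normSq_apply, hre, him]
    have h2 : y * y ≤ ρ ^ 2 := by
      rw [← sq, ← sq_abs]
      exact pow_le_pow_left₀ (abs_nonneg _) hy 2
    nlinarith
  have hn1 : ‖rt σ‖ ≤ 1 := by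
    by_contra hcon
    have h1 : 1 < ‖rt σ‖ ^ 4 := one_lt_pow₀ (not_le.1 hcon) (by norm_num)
    linarith
  obtain ⟨h1, h2, h3, h4, h5⟩ := bas_gg ht0 ht hn1 (rt_ne σ)
  rw [rt_sq hσ0] at h4 h5
  have hslit : qq t (rt σ) ∈ Complex.slitPlane := by
    have := Complex.mem_slitPlane_of_norm_lt_one h3
    rwa [add_sub_cancel] at this
  refine ⟨?_, h1, h2, hslit, ?_, ?_, ?_⟩
  · left
    rw [hre]
    positivity
  · have h6 := (Complex.re_le_norm _).trans h4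
    have h7 : (Complex.log (qq t (rt σ)) + σ / 6 * (1 - (t : ℂ) ^ 2)).re =
        (Complex.log (qq t (rt σ))).re + 13 * ρ ^ 2 / 6 * (1 - t ^ 2) := by
      have e : σ / 6 * (1 - (t : ℂ) ^ 2) = ((1 / 6 * (1 - t ^ 2) : ℝ) : ℂ) * σ := by
        push_cast
        ring
      rw [Complex.add_re, e, Complex.re_ofReal_mul, hre]
      ring
    rw [h7] at h6
    have h8 : 3 / 4 ≤ 1 - t ^ 2 := by nlinarith
    have h9 : 13 * ρ ^ 2 / 6 * (3 / 4) ≤ 13 * ρ ^ 2 / 6 * (1 - t ^ 2) := by gcongr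
    have h10 : 0 < ρ ^ 2 := by positivity
    linarith
  · have h6 := (Complex.abs_re_le_norm _).trans h5
    have h7 : (gg t (rt σ) - (1 + t) - σ * t * (1 + t) / 6).re =
        (gg t (rt σ)).re - (1 + t) - 13 * ρ ^ 2 * t * (1 + t) / 6 := by
      have e : σ * t * (1 + t) / 6 = ((1 / 6 * t * (1 + t) : ℝ) : ℂ) * σ := by
        push_cast
        ring
      have e2 : (1 : ℂ) + t = ((1 + t : ℝ) : ℂ) := by push_cast; ring
      rw [e, e2, Complex.sub_re, Complex.sub_re, Complex.re_ofReal_mul, hre, Complex.ofReal_re]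
      ring
    rw [h7] at h6
    have h8 := (abs_le.1 h6).1
    have h9 : t * ‖rt σ‖ ^ 4 ≤ t * (2 * ρ ^ 2) := by gcongr
    have h10 : 0 < ρ ^ 2 * t := by positivity
    have h11 : 0 < ρ ^ 2 * t * t := by positivity
    nlinarith
  · have e : gg t (rt σ) - (1 + t) - y * I * t * (1 + t) / 6 =
        (gg t (rt σ) - (1 + t) - σ * t * (1 + t) / 6) + ((13 * ρ ^ 2 * t * (1 + t) / 6 : ℝ) : ℂ) := by
      rw [hσ]
      push_cast
      ring
    rw [e]
    refine (norm_add_le _ _).trans ?_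
    rw [Complex.norm_real, Real.norm_of_nonneg (by positivity)]
    have h9 : t * ‖rt σ‖ ^ 4 ≤ t * (2 * ρ ^ 2) := by gcongr
    have h10 : 13 * ρ ^ 2 * t * (1 + t) / 6 ≤ 13 * ρ ^ 2 * t * (3 / 2) / 6 := by
      have : 1 + t ≤ 3 / 2 := by linarith
      gcongr
    have h11 : 0 < ρ ^ 2 * t := by positivity
    linarith

/-- the curve in the component of period two -/
theorem curve_two (hd : 2 ≤ d) (hA : A ^ (d - 1) = -1 / d) {ρ : ℝ} (hρ0 : 0 < ρ)
    (hρ : ρ ≤ 1 / 13) : ∃ (V : Set ℂ) (y : ℂ) (b : ℝ), V ⊆ KK d A ∧ IsCompact V ∧ IsPreconnected V ∧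
      y ∈ V ∧ (b : ℂ) ∈ V ∧ 1 + 1 / (d : ℝ) < b ∧ (∀ z ∈ V, 1 + 1 / (d : ℝ) < z.re) ∧
      ‖y - (1 + (1 / (d : ℝ) : ℝ)) - ρ * I * (1 / (d : ℝ) : ℝ) * (1 + (1 / (d : ℝ) : ℝ)) / 6‖ ≤
        6 * ρ ^ 2 * (1 / d) ∧
      y = gg (1 / (d : ℝ)) (rt (((13 * ρ ^ 2 : ℝ) : ℂ) + ρ * I)) := by
  obtain ⟨t, ht⟩ : ∃ t : ℝ, t = 1 / d := ⟨_, rfl⟩
  have hdR : (2 : ℝ) ≤ d := by exact_mod_cast hd
  have ht0 : 0 < t := by rw [ht]; positivity
  have ht2 : t ≤ 1 / 2 := by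
    rw [ht]
    exact one_div_le_one_div_of_le (by norm_num) hdR
  rw [← ht]
  obtain ⟨F, hF⟩ : ∃ F : ℝ → ℂ, F = fun y : ℝ => gg t (rt (((13 * ρ ^ 2 : ℝ) : ℂ) + y * I)) := ⟨_, rfl⟩
  have hbd : ∀ y ∈ Icc (0 : ℝ) ρ, _ := fun y hy => seg_bd ht0 ht2 hρ0 hρ
    (show |y| ≤ ρ by rw [abs_of_nonneg hy.1]; exact hy.2)
    (σ := ((13 * ρ ^ 2 : ℝ) : ℂ) + y * I) rfl
  have hFc : ContinuousOn F (Icc 0 ρ) := by
    have h1 : ContinuousOn (fun y : ℝ => rt (((13 * ρ ^ 2 : ℝ) : ℂ) + y * I)) (Icc 0 ρ) := by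
      unfold rt
      apply Complex.continuous_exp.comp_continuousOn
      refine ContinuousOn.div_const (ContinuousOn.clog (by fun_prop) fun y hy => ?_) _
      exact (hbd y hy).1
    have hs : ContinuousOn (fun y : ℝ => Complex.sinh (rt (((13 * ρ ^ 2 : ℝ) : ℂ) + y * I)))
        (Icc 0 ρ) := Complex.continuous_sinh.comp_continuousOn h1
    have hst : ContinuousOn (fun y : ℝ => Complex.sinh (rt (((13 * ρ ^ 2 : ℝ) : ℂ) + y * I) * t))
        (Icc 0 ρ) := Complex.continuous_sinh.comp_continuousOn (h1.mul continuousOn_const)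
    have hc : ContinuousOn (fun y : ℝ => Complex.cosh (rt (((13 * ρ ^ 2 : ℝ) : ℂ) + y * I)))
        (Icc 0 ρ) := Complex.continuous_cosh.comp_continuousOn h1
    have hct : ContinuousOn (fun y : ℝ => Complex.cosh (rt (((13 * ρ ^ 2 : ℝ) : ℂ) + y * I) * t))
        (Icc 0 ρ) := Complex.continuous_cosh.comp_continuousOn (h1.mul continuousOn_const)
    have hq : ContinuousOn (fun y : ℝ => qq t (rt (((13 * ρ ^ 2 : ℝ) : ℂ) + y * I))) (Icc 0 ρ) := by
      unfold qq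
      refine hst.div (continuousOn_const.mul hs) fun y hy => ?_
      exact mul_ne_zero (by exact_mod_cast ht0.ne') (hbd y hy).2.1
    have hm : ContinuousOn (fun y : ℝ => mm t (rt (((13 * ρ ^ 2 : ℝ) : ℂ) + y * I))) (Icc 0 ρ) := by
      unfold mm
      apply Complex.continuous_exp.comp_continuousOn
      exact (hq.clog fun y hy => (hbd y hy).2.2.2.1).mul continuousOn_const
    rw [hF]
    unfold gg
    exact hm.mul (hct.add ((hc.mul hst).div hs fun y hy => (hbd y hy).2.1))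
  have h0ρ : (0 : ℝ) ∈ Icc (0 : ℝ) ρ := ⟨le_rfl, hρ0.le⟩
  have hρρ : ρ ∈ Icc (0 : ℝ) ρ := ⟨hρ0.le, le_rfl⟩
  obtain ⟨b, hb⟩ := gg_real ht0 (x := 13 * ρ ^ 2) (by positivity)
  have hF0 : F 0 = b := by
    rw [hF, ← hb]
    simp
  refine ⟨F '' Icc 0 ρ, F ρ, b, ?_, isCompact_Icc.image_of_continuousOn hFc,
    isPreconnected_Icc.image _ hFc, ⟨ρ, hρρ, rfl⟩, ⟨0, h0ρ, hF0⟩, ?_, ?_, ?_, by rw [hF]⟩
  · rintro _ ⟨y, hy, rfl⟩
    rw [hF]
    exact mem_gg hd hA ht (hbd y hy).2.1 (hbd y hy).2.2.1 (hbd y hy).2.2.2.2.1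
  · have h1 := (hbd 0 h0ρ).2.2.2.2.2.1
    have h2 : F 0 = gg t (rt (((13 * ρ ^ 2 : ℝ) : ℂ) + (0 : ℝ) * I)) := by rw [hF]
    rw [← h2, hF0, Complex.ofReal_re] at h1
    exact h1
  · rintro _ ⟨y, hy, rfl⟩
    rw [hF]
    exact (hbd y hy).2.2.2.2.2.1
  · rw [hF]
    exact (hbd ρ hρρ).2.2.2.2.2.2

/-- the curve in the main component -/
theorem curve_one (hd : 2 ≤ d) (hA : A ^ (d - 1) = -1 / d) {ρ : ℝ} (hρ0 : 0 < ρ)
    (hρ : ρ ≤ 1 / 13) : ∃ (V : Set ℂ) (x : ℂ) (a : ℝ), V ⊆ KK d A ∧ IsCompact V ∧ IsPreconnected V ∧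
      x ∈ V ∧ (a : ℂ) ∈ V ∧ a < 1 + 1 / (d : ℝ) ∧ (∀ z ∈ V, ‖z‖ < 1 + 1 / (d : ℝ)) ∧
      ‖x - (1 + (1 / (d : ℝ) : ℝ)) - ρ * I * (1 / (d : ℝ) : ℝ) * (1 + (1 / (d : ℝ) : ℝ)) / 6‖ ≤
        ρ ^ 2 * (1 / d) ∧
      ∃ ξ : ℂ, ‖ξ‖ < 1 ∧ x = ξ + ξ ^ d / d ∧ ‖ξ - 1‖ ≤ ρ * (1 / d) / 4 := by
  obtain ⟨t, ht⟩ : ∃ t : ℝ, t = 1 / d := ⟨_, rfl⟩
  have hdR : (2 : ℝ) ≤ d := by exact_mod_cast hd
  have hd0 : (d : ℝ) ≠ 0 := by positivity
  have hd0c : (d : ℂ) ≠ 0 := by exact_mod_cast hd0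
  have ht0 : 0 < t := by rw [ht]; positivity
  have ht2 : t ≤ 1 / 2 := by
    rw [ht]
    exact one_div_le_one_div_of_le (by norm_num) hdR
  have hdt : (d : ℝ) * t = 1 := by rw [ht]; field_simp
  have hdtc : (d : ℂ) * t = 1 := by exact_mod_cast hdt
  have hdiv : ∀ x : ℂ, x / d = x * t := by
    intro x
    rw [div_eq_iff hd0c]
    linear_combination (-x) * hdtc
  rw [← ht]
  have hρ2 : ρ ^ 2 ≤ 1 / 169 := by nlinarith
  obtain ⟨r, hr⟩ : ∃ r, r = 1 - ρ ^ 2 * t / 4 := ⟨_, rfl⟩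
  have hr1 : r < 1 := by
    rw [hr]
    have : 0 < ρ ^ 2 * t := by positivity
    linarith
  have hr0 : 0 < r := by
    rw [hr]
    have : ρ ^ 2 * t ≤ 1 / 169 * (1 / 2) := by gcongr
    linarith
  obtain ⟨F, hF⟩ : ∃ F : ℝ → ℂ, F = fun θ : ℝ => (r * Complex.exp (θ * I)) +
    (r * Complex.exp (θ * I)) ^ d / d := ⟨_, rfl⟩
  have hFc : Continuous F := by
    rw [hF]
    fun_prop
  obtain ⟨θ, hθ⟩ : ∃ θ, θ = ρ * t * (1 + t) / 12 := ⟨_, rfl⟩
  have hθ0 : 0 ≤ θ := by rw [hθ]; positivity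
  have hθ1 : θ ≤ ρ * t / 8 := by
    rw [hθ]
    have : ρ * t * (1 + t) ≤ ρ * t * (3 / 2) := by
      have : 1 + t ≤ 3 / 2 := by linarith
      gcongr
    linarith
  have hnorm : ∀ x : ℝ, ‖(r : ℂ) * Complex.exp (x * I)‖ = r := by
    intro x
    rw [norm_mul, Complex.norm_real, Real.norm_of_nonneg hr0.le, Complex.norm_exp_ofReal_mul_I,
      mul_one]
  have hrd : r ^ d < 1 := pow_lt_one₀ hr0.le hr1 (by omega)
  refine ⟨F '' Icc 0 θ, F θ, r + r ^ d * t, ?_, isCompact_Icc.image hFc,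
    isPreconnected_Icc.image _ hFc.continuousOn, ⟨θ, ⟨hθ0, le_rfl⟩, rfl⟩,
    ⟨0, ⟨le_rfl, hθ0⟩, ?_⟩, ?_, ?_, ?_, ⟨(r : ℂ) * Complex.exp (θ * I), by rw [hnorm]; exact hr1,
      by rw [hF], ?_⟩⟩
  · rintro _ ⟨x, -, rfl⟩
    rw [hF]
    exact mem_one hd hA (by rw [hnorm]; exact hr1)
  · rw [hF]
    simp only [Complex.ofReal_zero, zero_mul, Complex.exp_zero, mul_one]
    rw [hdiv]
    push_cast
    rfl
  · have : r ^ d * t < 1 * t := mul_lt_mul_of_pos_right hrd ht0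
    linarith
  · rintro _ ⟨x, -, rfl⟩
    rw [hF]
    refine (norm_add_le _ _).trans_lt ?_
    have h1 : ‖((r : ℂ) * Complex.exp (x * I)) ^ d / d‖ = r ^ d * t := by
      rw [hdiv, norm_mul, norm_pow, hnorm, Complex.norm_real, Real.norm_of_nonneg ht0.le]
    rw [h1, hnorm]
    have : r ^ d * t < 1 * t := mul_lt_mul_of_pos_right hrd ht0
    linarith
  · have hθn : ‖(θ : ℂ) * I‖ = θ := by
      rw [norm_mul, Complex.norm_I, mul_one, Complex.norm_real, Real.norm_of_nonneg hθ0]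
    have hdθ : (d : ℝ) * θ ≤ ρ / 8 := by
      have h1 : (d : ℝ) * θ ≤ d * (ρ * t / 8) := by gcongr
      have h2 : (d : ℝ) * (ρ * t / 8) = ρ / 8 * (d * t) := by ring
      rw [h2, hdt, mul_one] at h1
      exact h1
    have hdθn : ‖(d : ℂ) * (θ * I)‖ = d * θ := by
      rw [norm_mul, hθn, Complex.norm_natCast]
    have e1 := Complex.norm_exp_sub_one_sub_id_le (x := θ * I) (by
      rw [hθn]
      have : ρ * t ≤ 1 / 13 * (1 / 2) := by gcongr
      linarith)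
    have e2 := Complex.norm_exp_sub_one_sub_id_le (x := (d : ℂ) * (θ * I)) (by
      rw [hdθn]
      linarith)
    rw [hθn] at e1
    rw [hdθn] at e2
    have hFθ : F θ - (1 + t) - ρ * I * t * (1 + t) / 6 =
        ((r : ℂ) - 1) * Complex.exp (θ * I) + (Complex.exp (θ * I) - 1 - θ * I) +
        t * (((r : ℂ) ^ d - 1) * Complex.exp (d * (θ * I)) +
          (Complex.exp (d * (θ * I)) - 1 - d * (θ * I))) := by
      rw [hF]
      simp only
      rw [hdiv, mul_pow, ← Complex.exp_nat_mul]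
      have h1 : (θ : ℂ) = ρ * t * (1 + t) / 12 := by rw [hθ]; push_cast; ring
      have h2 : (θ : ℂ) * I + t * (d * (θ * I)) = ρ * I * t * (1 + t) / 6 := by
        have h3 : (θ : ℂ) * I + t * (d * (θ * I)) = 2 * θ * I := by
          linear_combination (θ * I) * hdtc
        rw [h3, h1]
        ring
      linear_combination h2
    rw [hFθ]
    have n1 : ‖((r : ℂ) - 1) * Complex.exp (θ * I)‖ = ρ ^ 2 * t / 4 := by
      rw [norm_mul, Complex.norm_exp_ofReal_mul_I, mul_one]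
      have : (r : ℂ) - 1 = ((r - 1 : ℝ) : ℂ) := by push_cast; ring
      rw [this, Complex.norm_real, Real.norm_eq_abs, abs_of_neg (by linarith), hr]
      ring
    have n2 : ‖((r : ℂ) ^ d - 1) * Complex.exp (d * (θ * I))‖ ≤ d * (ρ ^ 2 * t / 4) := by
      have h0 : (d : ℂ) * (θ * I) = ((d * θ : ℝ) : ℂ) * I := by push_cast; ring
      rw [norm_mul, h0, Complex.norm_exp_ofReal_mul_I, mul_one]
      have : (r : ℂ) ^ d - 1 = ((r ^ d - 1 : ℝ) : ℂ) := by push_cast; ring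
      rw [this, Complex.norm_real, Real.norm_eq_abs, abs_of_neg (by linarith)]
      have h1 := one_add_mul_le_pow (a := r - 1) (by linarith) d
      rw [show 1 + (r - 1) = r by ring] at h1
      have h2 : r - 1 = -(ρ ^ 2 * t / 4) := by rw [hr]; ring
      rw [h2] at h1
      linarith
    have n3 : ‖(t : ℂ) * (((r : ℂ) ^ d - 1) * Complex.exp (d * (θ * I)) +
          (Complex.exp (d * (θ * I)) - 1 - d * (θ * I)))‖ ≤
        t * (d * (ρ ^ 2 * t / 4) + (d * θ) ^ 2) := by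
      rw [norm_mul, Complex.norm_real, Real.norm_of_nonneg ht0.le]
      exact mul_le_mul_of_nonneg_left ((norm_add_le _ _).trans (add_le_add n2 e2)) ht0.le
    refine (norm_add_le _ _).trans ((add_le_add ((norm_add_le _ _).trans
      (add_le_add n1.le e1)) n3).trans ?_)
    have h1 : t * (d * (ρ ^ 2 * t / 4) + (d * θ) ^ 2) = (d * t) * (ρ ^ 2 * t / 4) +
      t * (d * θ) ^ 2 := by ring
    rw [h1, hdt, one_mul]
    have h2 : (d * θ) ^ 2 ≤ (ρ / 8) ^ 2 := pow_le_pow_left₀ (by positivity) hdθ 2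
    have h3 : t * (d * θ) ^ 2 ≤ t * (ρ / 8) ^ 2 := by gcongr
    have h4 : θ ^ 2 ≤ (ρ * t / 8) ^ 2 := pow_le_pow_left₀ hθ0 hθ1 2
    have h5 : (ρ * t / 8) ^ 2 ≤ ρ ^ 2 * t * (1 / 128) := by
      have : (ρ * t / 8) ^ 2 = ρ ^ 2 * t * (t / 64) := by ring
      rw [this]
      have : t / 64 ≤ 1 / 128 := by linarith
      gcongr
    have h6 : 0 < ρ ^ 2 * t := by positivity
    nlinarith
  · have e : (r : ℂ) * Complex.exp (θ * I) - 1 = ((r : ℂ) - 1) * Complex.exp (θ * I) +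
        (Complex.exp (θ * I) - 1) := by ring
    have n1 : ‖((r : ℂ) - 1) * Complex.exp (θ * I)‖ = ρ ^ 2 * t / 4 := by
      rw [norm_mul, Complex.norm_exp_ofReal_mul_I, mul_one]
      have : (r : ℂ) - 1 = ((r - 1 : ℝ) : ℂ) := by push_cast; ring
      rw [this, Complex.norm_real, Real.norm_eq_abs, abs_of_neg (by linarith), hr]
      ring
    have n2 : ‖Complex.exp (θ * I) - 1‖ ≤ θ := by
      have := Real.norm_exp_I_mul_ofReal_sub_one_le (x := θ)
      rw [mul_comm, Real.norm_of_nonneg hθ0] at this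
      exact this
    rw [e]
    refine (norm_add_le _ _).trans ?_
    rw [n1]
    have h3 : ρ ^ 2 * t ≤ 1 / 13 * (ρ * t) := by
      have : ρ ^ 2 * t = ρ * (ρ * t) := by ring
      rw [this]
      gcongr
    have h4 : 0 < ρ * t := by positivity
    linarith

theorem norm_A (hd : 2 ≤ d) (hA : A ^ (d - 1) = -1 / d) : 1 / 2 ≤ ‖A‖ ∧ ‖A‖ ≤ 1 := by
  have hdR : (2 : ℝ) ≤ d := by exact_mod_cast hd
  have h1 : ‖A‖ ^ (d - 1) = 1 / d := by
    rw [← norm_pow, hA, norm_div, norm_neg, norm_one, Complex.norm_natCast]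
  constructor
  · by_contra hcon
    have h2 : ‖A‖ ^ (d - 1) < (1 / 2) ^ (d - 1) :=
      pow_lt_pow_left₀ (not_le.1 hcon) (norm_nonneg _) (by omega)
    have h3 : (d : ℝ) ≤ 2 ^ (d - 1) := by
      have : d ≤ 2 ^ (d - 1) := by
        have := Nat.lt_two_pow_self (n := d - 1)
        omega
      exact_mod_cast this
    rw [h1, one_div_pow] at h2
    have h4 : 1 / (2 : ℝ) ^ (d - 1) ≤ 1 / d := one_div_le_one_div_of_le (by positivity) h3
    linarith
  · have h2 : ‖A‖ ^ (d - 1) ≤ 1 := by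
      rw [h1, div_le_one (by positivity)]
      linarith
    exact (pow_le_one_iff_of_nonneg (norm_nonneg _) (by omega)).1 h2

end Pool.Agent.H15.Sep
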