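import Mathlib

/-!
# Real boundary points of a full compact set which is symmetric about the real axis

If `K` is compact, symmetric about the real axis, with connected complement, and if the real number
`c₀` is in the closure of the complement, then every closed connected subset of `K` which contains
real points on both sides of `c₀` contains `c₀`.
-/

set_option autoImplicit false

open Complex Set Filter Topology Metric

namespace Pool.Agent.H15.Sep

/-- `z - p` has a continuous logarithm on `K` -/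
def HasLog (K : Set ℂ) (p : ℂ) : Prop :=
  ∃ l : ℂ → ℂ, ContinuousOn l K ∧ ∀ z ∈ K, Complex.exp (l z) = z - p

theorem hasLog_step {K : Set ℂ} {p q : ℂ} (hpq : ∀ z ∈ K, ‖p - q‖ < ‖z - p‖) (h : HasLog K p) :
    HasLog K q := by
  obtain ⟨l, hl, hl1⟩ := h
  have hne : ∀ z ∈ K, z - p ≠ 0 := by
    intro z hz h0
    have := hpq z hz
    rw [h0, norm_zero] at this
    exact absurd (norm_nonneg _) (not_le.2 this)
  have hw : ∀ z ∈ K, ‖(p - q) / (z - p)‖ < 1 := by
    intro z hz
    rw [norm_div, div_lt_one (norm_pos_iff.2 (hne z hz))]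
    exact hpq z hz
  refine ⟨fun z => l z + Complex.log (1 + (p - q) / (z - p)), ?_, ?_⟩
  · refine hl.add (ContinuousOn.clog ?_ fun z hz => Complex.mem_slitPlane_of_norm_lt_one (hw z hz))
    refine continuousOn_const.add (continuousOn_const.div ?_ hne)
    fun_prop
  · intro z hz
    have h1 : (1 : ℂ) + (p - q) / (z - p) ≠ 0 :=
      Complex.slitPlane_ne_zero (Complex.mem_slitPlane_of_norm_lt_one (hw z hz))
    have h2 := hne z hz
    show Complex.exp (l z + Complex.log (1 + (p - q) / (z - p))) = z - q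
    rw [Complex.exp_add, Complex.exp_log h1, hl1 z hz]
    field_simp
    ring

theorem hasLog_far {K : Set ℂ} {p : ℂ} (h : ∀ z ∈ K, ‖z‖ < ‖p‖) (hp : p ≠ 0) : HasLog K p := by
  have hw : ∀ z ∈ K, ‖-(z / p)‖ < 1 := by
    intro z hz
    rw [norm_neg, norm_div, div_lt_one (norm_pos_iff.2 hp)]
    exact h z hz
  refine ⟨fun z => Complex.log (-p) + Complex.log (1 + -(z / p)), ?_, ?_⟩
  · refine continuousOn_const.add
      (ContinuousOn.clog ?_ fun z hz => Complex.mem_slitPlane_of_norm_lt_one (hw z hz))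
    fun_prop
  · intro z hz
    have h1 : (1 : ℂ) + -(z / p) ≠ 0 :=
      Complex.slitPlane_ne_zero (Complex.mem_slitPlane_of_norm_lt_one (hw z hz))
    show Complex.exp (Complex.log (-p) + Complex.log (1 + -(z / p))) = z - p
    rw [Complex.exp_add, Complex.exp_log h1, Complex.exp_log (neg_ne_zero.2 hp)]
    field_simp
    ring

/-- on a compact set with connected complement there are continuous logarithms -/
theorem hasLog_of_full {K : Set ℂ} (hK : IsCompact K) (hc : IsPreconnected Kᶜ) {p : ℂ}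
    (hp : p ∉ K) : HasLog K p := by
  obtain ⟨R, hR0, hR⟩ := hK.isBounded.exists_pos_norm_le
  have hq : ((R + 1 : ℝ) : ℂ) ∈ Kᶜ := by
    intro h
    have := hR _ h
    rw [Complex.norm_real, Real.norm_of_nonneg (by linarith)] at this
    linarith
  have hfar : HasLog K ((R + 1 : ℝ) : ℂ) := by
    apply hasLog_far
    · intro z hz
      rw [Complex.norm_real, Real.norm_of_nonneg (by linarith)]
      have := hR z hz
      linarith
    · intro h0
      have h1 : R + 1 = 0 := by exact_mod_cast h0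
      linarith
  refine hc.induction₂' (fun x y => HasLog K x → HasLog K y) ?_ ?_ hq hp hfar
  · intro x hx
    have ho : IsOpen Kᶜ := hK.isClosed.isOpen_compl
    obtain ⟨δ, hδ, hb⟩ := Metric.isOpen_iff.1 ho x hx
    have h1 : ∀ z ∈ K, δ ≤ ‖z - x‖ := by
      intro z hz
      by_contra hcon
      exact hb (show z ∈ ball x δ by rw [mem_ball, dist_eq_norm]; exact not_le.1 hcon) hz
    filter_upwards [mem_nhdsWithin_of_mem_nhds (ball_mem_nhds x (half_pos hδ))] with y hy
    rw [mem_ball, dist_eq_norm] at hy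
    constructor
    · apply hasLog_step
      intro z hz
      have := h1 z hz
      rw [norm_sub_rev]
      linarith
    · apply hasLog_step
      intro z hz
      have h2 := h1 z hz
      have h3 : ‖z - x‖ ≤ ‖z - y‖ + ‖y - x‖ := by
        refine le_trans (le_of_eq ?_) (norm_add_le _ _)
        congr 1
        ring
      linarith
  · intro x y z _ _ _ h1 h2 h3
    exact h2 (h1 h3)

/-- an integer valued continuous function is constant on a preconnected set -/
theorem int_const {X : Type*} [TopologicalSpace X] {Q : Set X} (hQ : IsPreconnected Q) {f : X → ℝ}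
    (hf : ContinuousOn f Q) (hi : ∀ x ∈ Q, ∃ n : ℤ, f x = n) {x y : X} (hx : x ∈ Q) (hy : y ∈ Q) :
    f x = f y := by
  by_contra hne
  wlog hlt : f x < f y generalizing x y with H
  · exact H hy hx (Ne.symm hne) (lt_of_le_of_ne (not_lt.1 hlt) (Ne.symm hne))
  obtain ⟨n, hn⟩ := hi x hx
  obtain ⟨m, hm⟩ := hi y hy
  have h1 := hQ.intermediate_value hx hy hf
  have hnm : n < m := by
    rw [hn, hm] at hlt
    exact_mod_cast hlt
  have hnm' : (n : ℝ) + 1 ≤ m := by exact_mod_cast hnm
  obtain ⟨w, hw, hw1⟩ := h1 (show (n : ℝ) + 1 / 2 ∈ Icc (f x) (f y) by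
    rw [hn, hm]
    constructor <;> linarith)
  obtain ⟨k, hk⟩ := hi w hw
  rw [hw1] at hk
  have h2 : (2 * n + 1 : ℤ) = 2 * k := by
    have : (2 * (n : ℝ) + 1) = 2 * k := by linarith
    exact_mod_cast this
  omega

theorem sign_lemma {K : Set ℂ} {p : ℂ} {l : ℂ → ℂ} (hl : ∀ z ∈ K, Complex.exp (l z) = z - p)
    {a : ℝ} (ha : (a : ℂ) ∈ K) {n : ℤ} (hpos : 0 < ((a - p) / (a - starRingEnd ℂ p)).re)
    (hn : l a - starRingEnd ℂ (l a) - Complex.log ((a - p) / (a - starRingEnd ℂ p)) =
      2 * Real.pi * n * I) : 0 < (-1 : ℝ) ^ n * ((a : ℂ) - p).re := by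
  obtain ⟨y, hy⟩ : ∃ y, y = (l a).im := ⟨_, rfl⟩
  have h1 : 2 * y - Complex.arg ((a - p) / (a - starRingEnd ℂ p)) = 2 * Real.pi * n := by
    have := congrArg Complex.im hn
    simp at this
    rw [Complex.log_im] at this
    rw [hy]
    linarith
  have harg := Complex.abs_arg_lt_pi_div_two_iff.2 (Or.inl hpos)
  obtain ⟨e, he⟩ : ∃ e, e = Complex.arg ((a - p) / (a - starRingEnd ℂ p)) / 2 := ⟨_, rfl⟩
  have hy2 : y = n * Real.pi + e := by rw [he]; linarith
  have he2 : |e| < Real.pi / 2 := by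
    rw [he, abs_div, abs_of_pos (by norm_num : (0:ℝ) < 2)]
    have := Real.pi_pos
    linarith
  have hcos : 0 < Real.cos e := Real.cos_pos_of_mem_Ioo ⟨by linarith [(abs_lt.1 he2).1], (abs_lt.1 he2).2⟩
  have hcy : Real.cos y = (-1) ^ n * Real.cos e := by
    rw [hy2, Real.cos_add, Real.cos_int_mul_pi, Real.sin_int_mul_pi]
    ring
  have h2 := congrArg Complex.re (hl a ha)
  rw [Complex.exp_re, ← hy, hcy] at h2
  rw [← h2]
  have h3 : (-1 : ℝ) ^ n * (-1 : ℝ) ^ n = 1 := by
    rw [← zpow_add₀ (by norm_num), ← two_mul, zpow_mul]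
    norm_num
  have h4 : (-1 : ℝ) ^ n * (Real.exp (l a).re * ((-1) ^ n * Real.cos e)) =
      ((-1 : ℝ) ^ n * (-1 : ℝ) ^ n) * (Real.exp (l a).re * Real.cos e) := by ring
  rw [h4, h3, one_mul]
  positivity

/-- **Real boundary points separate.** -/
theorem real_sep {K : Set ℂ} (hK : IsCompact K) (hc : IsPreconnected Kᶜ)
    (hsym : ∀ z ∈ K, starRingEnd ℂ z ∈ K) {c₀ : ℝ} (hfr : (c₀ : ℂ) ∈ closure Kᶜ) {Q : Set ℂ}
    (hQK : Q ⊆ K) (hQ : IsClosed Q) (hQc : IsPreconnected Q) {a b : ℝ} (ha : (a : ℂ) ∈ Q)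
    (hb : (b : ℂ) ∈ Q) (hac : a < c₀) (hcb : c₀ < b) : (c₀ : ℂ) ∈ Q := by
  by_contra hcon
  obtain ⟨δ, hδ, hball⟩ := Metric.isOpen_iff.1 hQ.isOpen_compl (c₀ : ℂ) hcon
  have hfarQ : ∀ z ∈ Q, δ ≤ ‖z - c₀‖ := by
    intro z hz
    by_contra h1
    exact hball (show z ∈ ball (c₀ : ℂ) δ by rw [mem_ball, dist_eq_norm]; exact not_le.1 h1) hz
  obtain ⟨p, hpK, hp⟩ := Metric.mem_closure_iff.1 hfr (δ / 8) (by positivity)
  rw [dist_comm, dist_eq_norm] at hp
  have hpc : ‖starRingEnd ℂ p - c₀‖ < δ / 8 := by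
    have : starRingEnd ℂ p - c₀ = starRingEnd ℂ (p - c₀) := by
      rw [map_sub, Complex.conj_ofReal]
    rw [this, Complex.norm_conj]
    exact hp
  have h1 : ∀ z ∈ Q, 7 * δ / 8 < ‖z - starRingEnd ℂ p‖ := by
    intro z hz
    have h2 := hfarQ z hz
    have h3 : ‖z - c₀‖ ≤ ‖z - starRingEnd ℂ p‖ + ‖starRingEnd ℂ p - c₀‖ := by
      refine le_trans (le_of_eq ?_) (norm_add_le _ _)
      congr 1
      ring
    linarith
  have h2 : ‖starRingEnd ℂ p - p‖ < δ / 4 := by
    have h3 : ‖starRingEnd ℂ p - p‖ ≤ ‖starRingEnd ℂ p - c₀‖ + ‖p - c₀‖ := by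
      refine le_trans (le_of_eq ?_) (norm_sub_le _ _)
      congr 1
      ring
    linarith
  -- the quotient
  have hquo : ∀ z ∈ Q, z - starRingEnd ℂ p ≠ 0 ∧
      ‖(z - p) / (z - starRingEnd ℂ p) - 1‖ < 1 := by
    intro z hz
    have h3 := h1 z hz
    have h4 : z - starRingEnd ℂ p ≠ 0 := by
      intro h0
      rw [h0, norm_zero] at h3
      linarith
    refine ⟨h4, ?_⟩
    have e : (z - p) / (z - starRingEnd ℂ p) - 1 = (starRingEnd ℂ p - p) / (z - starRingEnd ℂ p) := by
      field_simp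
      ring
    rw [e, norm_div, div_lt_one (norm_pos_iff.2 h4)]
    linarith
  have hslit : ∀ z ∈ Q, (z - p) / (z - starRingEnd ℂ p) ∈ Complex.slitPlane := by
    intro z hz
    have := Complex.mem_slitPlane_of_norm_lt_one (hquo z hz).2
    rwa [add_sub_cancel] at this
  have hre : ∀ z ∈ Q, 0 < ((z - p) / (z - starRingEnd ℂ p)).re := by
    intro z hz
    have h3 := (abs_le.1 ((Complex.abs_re_le_norm _).trans (hquo z hz).2.le)).1
    have h4 := (hquo z hz).2
    have h5 := (abs_lt.1 (lt_of_le_of_lt (Complex.abs_re_le_norm _) h4)).1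
    rw [Complex.sub_re, Complex.one_re] at h5
    linarith
  obtain ⟨l, hl, hl1⟩ := hasLog_of_full hK hc hpK
  obtain ⟨E, hE⟩ : ∃ E : ℂ → ℂ, E = fun z => l z - starRingEnd ℂ (l (starRingEnd ℂ z)) -
    Complex.log ((z - p) / (z - starRingEnd ℂ p)) := ⟨_, rfl⟩
  have hEc : ContinuousOn E Q := by
    rw [hE]
    refine ((hl.mono hQK).sub ?_).sub (ContinuousOn.clog ?_ hslit)
    · apply Complex.continuous_conj.comp_continuousOn
      refine hl.comp Complex.continuous_conj.continuousOn fun z hz => hsym z (hQK hz)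
    · exact ContinuousOn.div (by fun_prop) (by fun_prop) fun z hz => (hquo z hz).1
  have hE1 : ∀ z ∈ Q, ∃ n : ℤ, E z = 2 * Real.pi * n * I := by
    intro z hz
    have h3 : Complex.exp (E z) = 1 := by
      have h4 : Complex.exp (starRingEnd ℂ (l (starRingEnd ℂ z))) = z - starRingEnd ℂ p := by
        rw [Complex.exp_conj, hl1 _ (hsym z (hQK hz)), map_sub, Complex.conj_conj]
      rw [hE]
      simp only
      rw [Complex.exp_sub, Complex.exp_sub, Complex.exp_log (Complex.slitPlane_ne_zero (hslit z hz)),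
        h4, hl1 z (hQK hz), div_self (Complex.slitPlane_ne_zero (hslit z hz))]
    obtain ⟨n, hn⟩ := Complex.exp_eq_one_iff.1 h3
    exact ⟨n, by rw [hn]; ring⟩
  obtain ⟨na, hna⟩ := hE1 a ha
  obtain ⟨nb, hnb⟩ := hE1 b hb
  have hcst : (E a).im / (2 * Real.pi) = (E b).im / (2 * Real.pi) := by
    refine int_const hQc (f := fun z => (E z).im / (2 * Real.pi)) ?_ ?_ ha hb
    · exact (Complex.continuous_im.comp_continuousOn hEc).div_const _
    · intro z hz
      obtain ⟨n, hn⟩ := hE1 z hz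
      refine ⟨n, ?_⟩
      have hpi := Real.pi_pos
      have : (E z).im = 2 * Real.pi * n := by
        rw [hn]
        simp
      show (E z).im / (2 * Real.pi) = n
      rw [this]
      field_simp
  have hnn : na = nb := by
    have hpi := Real.pi_pos
    have h3 : (E a).im = 2 * Real.pi * na := by rw [hna]; simp
    have h4 : (E b).im = 2 * Real.pi * nb := by rw [hnb]; simp
    rw [h3, h4] at hcst
    field_simp at hcst
    exact_mod_cast hcst
  have hA := sign_lemma hl1 (hQK ha) (hre _ ha) (n := na) (by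
    rw [← hna, hE]
    simp only [Complex.conj_ofReal])
  have hB := sign_lemma hl1 (hQK hb) (hre _ hb) (n := nb) (by
    rw [← hnb, hE]
    simp only [Complex.conj_ofReal])
  rw [hnn] at hA
  have hpre : |p.re - c₀| < δ / 8 := by
    have h3 := (Complex.abs_re_le_norm (p - c₀)).trans_lt hp
    rwa [Complex.sub_re, Complex.ofReal_re] at h3
  have haδ : a ≤ c₀ - δ := by
    have h3 := hfarQ a ha
    rw [← Complex.ofReal_sub, Complex.norm_real, Real.norm_eq_abs, abs_of_neg (by linarith)] at h3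
    linarith
  have hbδ : c₀ + δ ≤ b := by
    have h3 := hfarQ b hb
    rw [← Complex.ofReal_sub, Complex.norm_real, Real.norm_eq_abs, abs_of_pos (by linarith)] at h3
    linarith
  have hA' : ((a : ℂ) - p).re < 0 := by
    rw [Complex.sub_re, Complex.ofReal_re]
    linarith [(abs_lt.1 hpre).1]
  have hB' : 0 < ((b : ℂ) - p).re := by
    rw [Complex.sub_re, Complex.ofReal_re]
    linarith [(abs_lt.1 hpre).2]
  have h5 : (-1 : ℝ) ^ nb < 0 := by
    by_contra h6
    exact absurd hA (not_lt.2 (mul_nonpos_of_nonneg_of_nonpos (not_lt.1 h6) hA'.le))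
  have h6 : 0 < (-1 : ℝ) ^ nb := by
    by_contra h7
    exact absurd hB (not_lt.2 (mul_nonpos_of_nonpos_of_nonneg (not_lt.1 h7) hB'.le))
  linarith

end Pool.Agent.H15.Sep
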