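import Pool.Agent.H15.Sep.Main

/-!
# The pairs of points are joined by small continua through the parabolic parameter
-/

set_option autoImplicit false

open Complex Set Filter Topology Metric

namespace Pool.Agent.H15.Sep

open N62a1eb23 (multibrotSet IsAttractingCycle)

variable {d : ℕ} {A : ℂ}

theorem sector_bd {t : ℝ} (ht0 : 0 < t) (ht : t ≤ 1 / 2) {σ : ℂ} (h1 : ‖σ‖ ≤ 1)
    (h2 : 6 * ‖σ‖ ^ 2 < σ.re) :
    σ ∈ Complex.slitPlane ∧ Complex.sinh (rt σ) ≠ 0 ∧ Complex.sinh (rt σ * t) ≠ 0 ∧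
    qq t (rt σ) ∈ Complex.slitPlane ∧ (Complex.log (qq t (rt σ))).re < 0 ∧
    1 + t < (gg t (rt σ)).re ∧
    ‖gg t (rt σ) - (1 + t)‖ ≤ 2 * t * ‖σ‖ := by
  have hσ0 : σ ≠ 0 := by
    rintro rfl
    simp at h2
  have hre : 0 < σ.re := lt_of_le_of_lt (by positivity) h2
  have hn4 : ‖rt σ‖ ^ 4 = ‖σ‖ ^ 2 := by
    rw [← rt_norm hσ0]
    ring
  have hn1 : ‖rt σ‖ ≤ 1 := by
    by_contra hcon
    have h3 : 1 < ‖rt σ‖ ^ 2 := one_lt_pow₀ (not_le.1 hcon) (by norm_num)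
    rw [rt_norm hσ0] at h3
    linarith
  obtain ⟨h3, h4, h5, h6, h7⟩ := bas_gg ht0 ht hn1 (rt_ne σ)
  rw [rt_sq hσ0, hn4] at h6 h7
  have hslit : qq t (rt σ) ∈ Complex.slitPlane := by
    have := Complex.mem_slitPlane_of_norm_lt_one h5
    rwa [add_sub_cancel] at this
  have hn0 : 0 ≤ ‖σ‖ ^ 2 := by positivity
  refine ⟨Or.inl hre, h3, h4, hslit, ?_, ?_, ?_⟩
  · have h8 := (Complex.re_le_norm _).trans h6
    have h9 : (Complex.log (qq t (rt σ)) + σ / 6 * (1 - (t : ℂ) ^ 2)).re =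
        (Complex.log (qq t (rt σ))).re + σ.re / 6 * (1 - t ^ 2) := by
      have e : σ / 6 * (1 - (t : ℂ) ^ 2) = ((1 / 6 * (1 - t ^ 2) : ℝ) : ℂ) * σ := by
        push_cast
        ring
      rw [Complex.add_re, e, Complex.re_ofReal_mul]
      ring
    rw [h9] at h8
    have h10 : 3 / 4 ≤ 1 - t ^ 2 := by nlinarith
    have h11 : σ.re / 6 * (3 / 4) ≤ σ.re / 6 * (1 - t ^ 2) := by gcongr
    linarith
  · have h8 := (Complex.abs_re_le_norm _).trans h7
    have h9 : (gg t (rt σ) - (1 + t) - σ * t * (1 + t) / 6).re =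
        (gg t (rt σ)).re - (1 + t) - σ.re * t * (1 + t) / 6 := by
      have e : σ * t * (1 + t) / 6 = ((1 / 6 * t * (1 + t) : ℝ) : ℂ) * σ := by
        push_cast
        ring
      have e2 : (1 : ℂ) + t = ((1 + t : ℝ) : ℂ) := by push_cast; ring
      rw [e, e2, Complex.sub_re, Complex.sub_re, Complex.re_ofReal_mul, Complex.ofReal_re]
      ring
    rw [h9] at h8
    have h10 := (abs_le.1 h8).1
    have h11 : t * (6 * ‖σ‖ ^ 2) < t * σ.re := by gcongr
    have h12 : 0 < t * σ.re := by positivity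
    have h13 : 0 < t * σ.re * t := by positivity
    nlinarith
  · have e : gg t (rt σ) - (1 + t) = (gg t (rt σ) - (1 + t) - σ * t * (1 + t) / 6) +
        ((t * (1 + t) / 6 : ℝ) : ℂ) * σ := by
      push_cast
      ring
    rw [e]
    refine (norm_add_le _ _).trans ?_
    rw [norm_mul, Complex.norm_real, Real.norm_of_nonneg (by positivity)]
    have h8 : t * ‖σ‖ ^ 2 ≤ t * ‖σ‖ := by
      have : ‖σ‖ ^ 2 ≤ ‖σ‖ := by nlinarith [norm_nonneg σ]
      gcongr
    have h9 : t * (1 + t) / 6 * ‖σ‖ ≤ t * (3 / 2) / 6 * ‖σ‖ := by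
      have : 1 + t ≤ 3 / 2 := by linarith
      gcongr
    have h10 : 0 ≤ t * ‖σ‖ := by positivity
    linarith

/-- the parameter with a fixed point of multiplier `-1` is in the set -/
theorem root_mem (hd : 2 ≤ d) (hA : A ^ (d - 1) = -1 / d) : ((1 + 1 / d : ℝ) : ℂ) ∈ KK d A := by
  have hc : IsClosed (KK d A) := (compact_KK hd (A_ne hd hA)).isClosed
  have h1 : Tendsto (fun x : ℝ => ((x : ℂ) + (x : ℂ) ^ d / d)) (𝓝[<] 1)
      (𝓝 ((1 : ℝ) + ((1 : ℝ) : ℂ) ^ d / d)) := by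
    apply Tendsto.mono_left _ nhdsWithin_le_nhds
    exact Continuous.tendsto (by fun_prop) 1
  have h2 : ((1 + 1 / d : ℝ) : ℂ) = (1 : ℝ) + ((1 : ℝ) : ℂ) ^ d / d := by
    push_cast
    rw [one_pow]
  rw [h2]
  refine hc.mem_of_tendsto h1 ?_
  have h3 : Ioo (-1 : ℝ) 1 ∈ 𝓝[<] (1 : ℝ) := Ioo_mem_nhdsLT (by norm_num)
  filter_upwards [h3] with x hx
  apply mem_one hd hA
  rw [Complex.norm_real, Real.norm_eq_abs, abs_lt]
  exact hx

/-- a small continuum from the root into the component of period two -/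
theorem join_two (hd : 2 ≤ d) (hA : A ^ (d - 1) = -1 / d) {σ : ℂ} (h1 : ‖σ‖ ≤ 1)
    (h2 : 6 * ‖σ‖ ^ 2 < σ.re) : ∃ V : Set ℂ, V ⊆ KK d A ∧ IsCompact V ∧ IsPreconnected V ∧
      gg (1 / d : ℝ) (rt σ) ∈ V ∧ ((1 + 1 / d : ℝ) : ℂ) ∈ V ∧
      ∀ z ∈ V, ‖z - ((1 + 1 / d : ℝ) : ℂ)‖ ≤ 2 * (1 / d) * ‖σ‖ := by
  obtain ⟨t, ht⟩ : ∃ t : ℝ, t = 1 / d := ⟨_, rfl⟩
  have hdR : (2 : ℝ) ≤ d := by exact_mod_cast hd
  have ht0 : 0 < t := by rw [ht]; positivity
  have ht2 : t ≤ 1 / 2 := by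
    rw [ht]
    exact one_div_le_one_div_of_le (by norm_num) hdR
  rw [← ht]
  have hσ0 : σ ≠ 0 := by
    rintro rfl
    simp at h2
  have hre : 0 < σ.re := lt_of_le_of_lt (by positivity) h2
  have hn0 : 0 < ‖σ‖ := norm_pos_iff.2 hσ0
  have hsc : ∀ x ∈ Ioc (0 : ℝ) 1, ‖(x : ℂ) * σ‖ ≤ 1 ∧ 6 * ‖(x : ℂ) * σ‖ ^ 2 < ((x : ℂ) * σ).re := by
    intro x hx
    have e1 : ‖(x : ℂ) * σ‖ = x * ‖σ‖ := by
      rw [norm_mul, Complex.norm_real, Real.norm_of_nonneg hx.1.le]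
    have e2 : ((x : ℂ) * σ).re = x * σ.re := Complex.re_ofReal_mul _ _
    rw [e1, e2]
    constructor
    · exact mul_le_one₀ hx.2 hn0.le h1
    · have h3 : x ^ 2 ≤ x := by nlinarith [hx.1, hx.2]
      have h4 : x * (6 * ‖σ‖ ^ 2) < x * σ.re := mul_lt_mul_of_pos_left h2 hx.1
      have h5 : x ^ 2 * (6 * ‖σ‖ ^ 2) ≤ x * (6 * ‖σ‖ ^ 2) := by gcongr
      have h6 : 6 * (x * ‖σ‖) ^ 2 = x ^ 2 * (6 * ‖σ‖ ^ 2) := by ring
      linarith
  have hbd : ∀ x ∈ Ioc (0 : ℝ) 1, _ := fun x hx =>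
    sector_bd ht0 ht2 (σ := (x : ℂ) * σ) (hsc x hx).1 (hsc x hx).2
  obtain ⟨F, hF⟩ : ∃ F : ℝ → ℂ, F = fun x : ℝ => if x = 0 then ((1 + t : ℝ) : ℂ) else
    gg t (rt ((x : ℂ) * σ)) := ⟨_, rfl⟩
  have hFx : ∀ x : ℝ, x ≠ 0 → F x = gg t (rt ((x : ℂ) * σ)) := by
    intro x hx
    rw [hF]
    simp [hx]
  have hF0 : F 0 = ((1 + t : ℝ) : ℂ) := by
    rw [hF]
    simp
  have hFb : ∀ x ∈ Icc (0 : ℝ) 1, ‖F x - ((1 + t : ℝ) : ℂ)‖ ≤ 2 * t * (x * ‖σ‖) := by
    intro x hx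
    rcases hx.1.lt_or_eq with h | h
    · rw [hFx x h.ne']
      have h3 := (hbd x ⟨h, hx.2⟩).2.2.2.2.2.2
      rw [norm_mul, Complex.norm_real, Real.norm_of_nonneg h.le] at h3
      have e : ((1 + t : ℝ) : ℂ) = 1 + t := by push_cast; ring
      rw [e]
      exact h3
    · rw [← h, hF0, sub_self, norm_zero]
      simp
  have hc1 : ContinuousOn (fun x : ℝ => gg t (rt ((x : ℂ) * σ))) (Ioc 0 1) := by
    have h1 : ContinuousOn (fun x : ℝ => rt ((x : ℂ) * σ)) (Ioc 0 1) := by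
      unfold rt
      apply Complex.continuous_exp.comp_continuousOn
      refine ContinuousOn.div_const (ContinuousOn.clog (by fun_prop) fun y hy => ?_) _
      exact (hbd y hy).1
    have hs : ContinuousOn (fun x : ℝ => Complex.sinh (rt ((x : ℂ) * σ)))
        (Ioc 0 1) := Complex.continuous_sinh.comp_continuousOn h1
    have hst : ContinuousOn (fun x : ℝ => Complex.sinh (rt ((x : ℂ) * σ) * t))
        (Ioc 0 1) := Complex.continuous_sinh.comp_continuousOn (h1.mul continuousOn_const)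
    have hc : ContinuousOn (fun x : ℝ => Complex.cosh (rt ((x : ℂ) * σ)))
        (Ioc 0 1) := Complex.continuous_cosh.comp_continuousOn h1
    have hct : ContinuousOn (fun x : ℝ => Complex.cosh (rt ((x : ℂ) * σ) * t))
        (Ioc 0 1) := Complex.continuous_cosh.comp_continuousOn (h1.mul continuousOn_const)
    have hq : ContinuousOn (fun x : ℝ => qq t (rt ((x : ℂ) * σ))) (Ioc 0 1) := by
      unfold qq
      refine hst.div (continuousOn_const.mul hs) fun y hy => ?_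
      exact mul_ne_zero (by exact_mod_cast ht0.ne') (hbd y hy).2.1
    have hm : ContinuousOn (fun x : ℝ => mm t (rt ((x : ℂ) * σ))) (Ioc 0 1) := by
      unfold mm
      apply Complex.continuous_exp.comp_continuousOn
      exact (hq.clog fun y hy => (hbd y hy).2.2.2.1).mul continuousOn_const
    unfold gg
    exact hm.mul (hct.add ((hc.mul hst).div hs fun y hy => (hbd y hy).2.1))
  have hFc : ContinuousOn F (Icc 0 1) := by
    intro x hx
    rcases hx.1.lt_or_eq with h | h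
    · have h3 : ContinuousWithinAt (fun x : ℝ => gg t (rt ((x : ℂ) * σ))) (Icc 0 1) x := by
        have h4 := hc1 x ⟨h, hx.2⟩
        refine h4.mono_of_mem_nhdsWithin ?_
        filter_upwards [self_mem_nhdsWithin, mem_nhdsWithin_of_mem_nhds (Ioi_mem_nhds h)]
          with y hy1 hy2
        exact ⟨hy2, hy1.2⟩
      refine h3.congr_of_eventuallyEq ?_ (hFx x h.ne')
      filter_upwards [mem_nhdsWithin_of_mem_nhds (Ioi_mem_nhds h)] with y hy
      exact hFx y (ne_of_gt hy)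
    · rw [← h]
      rw [ContinuousWithinAt, hF0, tendsto_iff_norm_sub_tendsto_zero]
      have h4 : Tendsto (fun x : ℝ => 2 * t * (x * ‖σ‖)) (𝓝[Icc 0 1] 0) (𝓝 0) := by
        have : Tendsto (fun x : ℝ => 2 * t * (x * ‖σ‖)) (𝓝 0) (𝓝 (2 * t * (0 * ‖σ‖))) :=
          Continuous.tendsto (by fun_prop) 0
        rw [zero_mul, mul_zero] at this
        exact this.mono_left nhdsWithin_le_nhds
      refine squeeze_zero' (Eventually.of_forall fun x => norm_nonneg _) ?_ h4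
      filter_upwards [self_mem_nhdsWithin] with x hx
      exact hFb x hx
  refine ⟨F '' Icc 0 1, ?_, isCompact_Icc.image_of_continuousOn hFc, isPreconnected_Icc.image _ hFc,
    ⟨1, ⟨zero_le_one, le_rfl⟩, ?_⟩, ⟨0, ⟨le_rfl, zero_le_one⟩, hF0⟩, ?_⟩
  · rintro _ ⟨x, hx, rfl⟩
    rcases hx.1.lt_or_eq with h | h
    · rw [hFx x h.ne']
      have h3 := hbd x ⟨h, hx.2⟩
      exact mem_gg hd hA ht h3.2.1 h3.2.2.1 h3.2.2.2.2.1
    · rw [← h, hF0, ht]
      exact root_mem hd hA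
  · rw [hFx 1 one_ne_zero]
    simp
  · rintro _ ⟨x, hx, rfl⟩
    refine (hFb x hx).trans ?_
    have : x * ‖σ‖ ≤ 1 * ‖σ‖ := by
      have := hx.2
      gcongr
    rw [one_mul] at this
    gcongr

/-- a small continuum from the root into the main component -/
theorem join_one (hd : 2 ≤ d) (hA : A ^ (d - 1) = -1 / d) {ξ : ℂ} (h1 : ‖ξ‖ < 1) :
    ∃ V : Set ℂ, V ⊆ KK d A ∧ IsCompact V ∧ IsPreconnected V ∧
      ξ + ξ ^ d / d ∈ V ∧ ((1 + 1 / d : ℝ) : ℂ) ∈ V ∧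
      ∀ z ∈ V, ‖z - ((1 + 1 / d : ℝ) : ℂ)‖ ≤ 2 * ‖ξ - 1‖ := by
  have hdR : (2 : ℝ) ≤ d := by exact_mod_cast hd
  have hd0 : (d : ℂ) ≠ 0 := by
    have : (d : ℝ) ≠ 0 := by positivity
    exact_mod_cast this
  obtain ⟨F, hF⟩ : ∃ F : ℂ → ℂ, F = fun z : ℂ => z + z ^ d / d := ⟨_, rfl⟩
  have hFc : Continuous F := by
    rw [hF]
    fun_prop
  have hF1 : F 1 = ((1 + 1 / d : ℝ) : ℂ) := by
    rw [hF]
    push_cast
    rw [one_pow]
  have hseg : IsCompact (segment ℝ ξ 1) := by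
    rw [segment_eq_image_lineMap]
    exact isCompact_Icc.image (by fun_prop)
  refine ⟨F '' segment ℝ ξ 1, ?_, hseg.image hFc,
    (convex_segment ξ 1).isPreconnected.image _ hFc.continuousOn,
    ⟨ξ, left_mem_segment ℝ ξ 1, by rw [hF]⟩, ⟨1, right_mem_segment ℝ ξ 1, hF1⟩, ?_⟩
  · rintro _ ⟨z, hz, rfl⟩
    obtain ⟨a, b, ha, hb, hab, rfl⟩ := hz
    rcases ha.lt_or_eq with h | h
    · have h2 : ‖a • ξ + b • (1 : ℂ)‖ < 1 := by
        refine (norm_add_le _ _).trans_lt ?_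
        rw [norm_smul, norm_smul, norm_one, Real.norm_of_nonneg ha, Real.norm_of_nonneg hb]
        nlinarith
      rw [hF]
      exact mem_one hd hA h2
    · have hb1 : b = 1 := by linarith
      rw [← h, hb1, zero_smul, zero_add, one_smul, hF1]
      exact root_mem hd hA
  · rintro _ ⟨z, hz, rfl⟩
    have hz1 : ‖z‖ ≤ 1 := by
      have h2 := (convex_closedBall (0 : ℂ) 1).segment_subset
        (show ξ ∈ closedBall (0 : ℂ) 1 by rw [mem_closedBall_zero_iff]; exact h1.le)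
        (show (1 : ℂ) ∈ closedBall (0 : ℂ) 1 by rw [mem_closedBall_zero_iff, norm_one]) hz
      rwa [mem_closedBall_zero_iff] at h2
    have hz2 : ‖z - 1‖ ≤ ‖ξ - 1‖ := by
      obtain ⟨a, b, ha, hb, hab, rfl⟩ := hz
      have e : a • ξ + b • (1 : ℂ) - 1 = (a : ℂ) * (ξ - 1) := by
        have : (b : ℂ) = 1 - a := by
          have : b = 1 - a := by linarith
          rw [this]
          push_cast
          ring
        rw [Complex.real_smul, Complex.real_smul, this]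
        ring
      rw [e, norm_mul, Complex.norm_real, Real.norm_of_nonneg ha]
      exact mul_le_of_le_one_left (norm_nonneg _) (by linarith)
    rw [← hF1, hF]
    have e : z + z ^ d / d - (1 + 1 ^ d / d) = (z - 1) * (1 + (∑ i ∈ Finset.range d, z ^ i) / d) := by
      have := mul_neg_geom_sum z d
      rw [one_pow]
      have h3 : z ^ d - 1 = (z - 1) * ∑ i ∈ Finset.range d, z ^ i := by
        linear_combination this
      field_simp
      linear_combination h3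
    show ‖z + z ^ d / d - (1 + 1 ^ d / d)‖ ≤ 2 * ‖ξ - 1‖
    rw [e, norm_mul]
    have h4 : ‖(1 : ℂ) + (∑ i ∈ Finset.range d, z ^ i) / d‖ ≤ 2 := by
      refine (norm_add_le _ _).trans ?_
      rw [norm_one, norm_div, Complex.norm_natCast]
      have h5 : ‖∑ i ∈ Finset.range d, z ^ i‖ ≤ d := by
        refine (norm_sum_le _ _).trans ?_
        calc ∑ i ∈ Finset.range d, ‖z ^ i‖ ≤ ∑ i ∈ Finset.range d, (1 : ℝ) := by
              apply Finset.sum_le_sum
              intro i _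
              rw [norm_pow]
              exact pow_le_one₀ (norm_nonneg _) hz1
          _ = d := by simp
      have h6 : ‖∑ i ∈ Finset.range d, z ^ i‖ / d ≤ 1 := by
        rw [div_le_one (by positivity)]
        exact h5
      linarith
    have h5 : ‖z - 1‖ * ‖(1 : ℂ) + (∑ i ∈ Finset.range d, z ^ i) / d‖ ≤ ‖ξ - 1‖ * 2 :=
      mul_le_mul hz2 h4 (norm_nonneg _) (norm_nonneg _)
    linarith

end Pool.Agent.H15.Sep
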